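import Pool.Agent.Hhelper2.LocalFactor

/-!
# Classification of finite structures of local type

Two finite structures of local type with the same number of elements are isomorphic as soon as `-1`
is trivial in both of them or in none of them. The proof is by induction on the dimension of the
nondegenerate symmetric bilinear form over `ZMod 2`: split off a hyperbolic pair if the form is
alternating, and a unit vector otherwise.
-/

namespace Pool.Agent.Hhelper86.Dyad

open Pool.Agent.Hhelper2

universe u v

namespace Cls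

open Module

/-- Nondegenerate symmetric bilinear form. -/
structure NS {V : Type u} [AddCommGroup V] [Module (ZMod 2) V]
    (B : V →ₗ[ZMod 2] V →ₗ[ZMod 2] ZMod 2) : Prop where
  symm : ∀ x y, B x y = B y x
  nd : ∀ x, (∀ y, B x y = 0) → x = 0

theorem z01 (c : ZMod 2) : c = 0 ∨ c = 1 := by
  revert c
  decide

theorem zself (c : ZMod 2) : c + c = 0 := by
  revert c
  decide

section one

variable {V : Type u} [AddCommGroup V] [Module (ZMod 2) V]
  (B : V →ₗ[ZMod 2] V →ₗ[ZMod 2] ZMod 2)

/-- Projection to the orthogonal complement of a vector of length one. -/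
noncomputable def pr1 (v : V) (hv : B v v = 1) : V →ₗ[ZMod 2] LinearMap.ker (B v) :=
  LinearMap.codRestrict _ (LinearMap.id - (B v).smulRight v) (by
    intro u
    simp [hv])

theorem pr1_coe (v : V) (hv : B v v = 1) (u : V) : ((pr1 B v hv u : LinearMap.ker (B v)) : V) =
    u - B v u • v := rfl

theorem pr1_add (v : V) (hv : B v v = 1) (u : V) :
    u = B v u • v + (pr1 B v hv u : V) := by
  rw [pr1_coe]
  abel

variable {B}

theorem NS.one (h : NS B) (v : V) (hv : B v v = 1) :
    NS (B.domRestrict₁₂ (LinearMap.ker (B v)) (LinearMap.ker (B v))) := by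
  refine ⟨fun x y => h.symm _ _, fun x hx => ?_⟩
  apply Subtype.ext
  apply h.nd
  intro y
  have h1 := hx (pr1 B v hv y)
  have h2 : B v x = 0 := x.2
  simp only [LinearMap.domRestrict₁₂_apply] at h1
  rw [pr1_add B v hv y, map_add, map_smul, h.symm x.1 v, h2, h1]
  simp

theorem finrank_ker [Module.Finite (ZMod 2) V] (v w : V) (hv : B v w = 1) :
    finrank (ZMod 2) (LinearMap.ker (B v)) + 1 = finrank (ZMod 2) V := by
  have h1 : LinearMap.range (B v) = ⊤ := by
    rw [LinearMap.range_eq_top]
    intro c
    refine ⟨c • w, ?_⟩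
    rw [map_smul, hv, smul_eq_mul, mul_one]
  have h2 := LinearMap.finrank_range_add_finrank_ker (B v)
  rw [h1, finrank_top, Module.finrank_self] at h2
  omega

/-- Projection to the orthogonal complement of a hyperbolic pair. -/
noncomputable def pr2 (B : V →ₗ[ZMod 2] V →ₗ[ZMod 2] ZMod 2) (x y : V) (hx : B x x = 0)
    (hy : B y y = 0) (hxy : B x y = 1) (hyx : B y x = 1) :
    V →ₗ[ZMod 2] (LinearMap.ker (B x) ⊓ LinearMap.ker (B y) : Submodule (ZMod 2) V) :=
  LinearMap.codRestrict _ (LinearMap.id - (B y).smulRight x - (B x).smulRight y) (by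
    intro u
    simp [hx, hy, hxy, hyx, Submodule.mem_inf])

theorem pr2_add (x y : V) (hx : B x x = 0)
    (hy : B y y = 0) (hxy : B x y = 1) (hyx : B y x = 1) (u : V) :
    u = B y u • x + B x u • y + (pr2 B x y hx hy hxy hyx u : V) := by
  have : (pr2 B x y hx hy hxy hyx u : V) = u - B y u • x - B x u • y := rfl
  rw [this]
  abel

theorem NS.two (h : NS B) (x y : V) (hx : B x x = 0)
    (hy : B y y = 0) (hxy : B x y = 1) (hyx : B y x = 1) :
    NS (B.domRestrict₁₂ (LinearMap.ker (B x) ⊓ LinearMap.ker (B y))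
      (LinearMap.ker (B x) ⊓ LinearMap.ker (B y))) := by
  refine ⟨fun x y => h.symm _ _, fun z hz => ?_⟩
  apply Subtype.ext
  apply h.nd
  intro t
  have h1 := hz (pr2 B x y hx hy hxy hyx t)
  have h2 : B x z = 0 := z.2.1
  have h3 : B y z = 0 := z.2.2
  simp only [LinearMap.domRestrict₁₂_apply] at h1
  rw [pr2_add x y hx hy hxy hyx t, map_add, map_add, map_smul, map_smul, h.symm z.1 x,
    h.symm z.1 y, h2, h3, h1]
  simp

theorem finrank_ker2 [Module.Finite (ZMod 2) V] (x y : V) (hx : B x x = 0)
    (hy : B y y = 0) (hxy : B x y = 1) (hyx : B y x = 1) :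
    finrank (ZMod 2) (LinearMap.ker (B x) ⊓ LinearMap.ker (B y) : Submodule (ZMod 2) V) + 2 =
      finrank (ZMod 2) V := by
  have h1 : LinearMap.range ((B x).prod (B y)) = ⊤ := by
    rw [LinearMap.range_eq_top]
    intro c
    refine ⟨c.1 • y + c.2 • x, ?_⟩
    ext <;> simp [hx, hy, hxy, hyx]
  have h2 := LinearMap.finrank_range_add_finrank_ker ((B x).prod (B y))
  rw [h1, finrank_top, LinearMap.ker_prod, Module.finrank_prod, Module.finrank_self] at h2
  omega

/-- A non-alternating space of dimension at least two contains a unit vector whose complement is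
non-alternating. -/
theorem exists_good [Module.Finite (ZMod 2) V] (h : NS B) (hna : ¬ ∀ x, B x x = 0)
    (hn : 2 ≤ finrank (ZMod 2) V) :
    ∃ v, B v v = 1 ∧ ∃ w, B v w = 0 ∧ B w w = 1 := by
  push Not at hna
  obtain ⟨v, hv0⟩ := hna
  have hv : B v v = 1 := (z01 _).resolve_left hv0
  by_cases hex : ∃ w, B v w = 0 ∧ B w w = 1
  · exact ⟨v, hv, hex⟩
  · push Not at hex
    have hr := finrank_ker v v hv
    have hne : LinearMap.ker (B v) ≠ ⊥ := by
      intro h0
      rw [h0, finrank_bot] at hr
      omega
    obtain ⟨x, hx, hx0⟩ := (Submodule.ne_bot_iff _).1 hne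
    have hvx : B v x = 0 := hx
    have : ∃ t, B x t ≠ 0 := by
      by_contra hcon
      push Not at hcon
      exact hx0 (h.nd x hcon)
    obtain ⟨t, ht⟩ := this
    have ht1 : B x t = 1 := (z01 _).resolve_left ht
    have hxx : B x x = 0 := (z01 _).resolve_right (hex x hvx)
    have hxv : B x v = 0 := by rw [h.symm, hvx]
    set y : V := t - B v t • v with hy
    have hvy : B v y = 0 := by simp [hy, hv]
    have hxy : B x y = 1 := by simp [hy, hxv, ht1]
    have hyy : B y y = 0 := (z01 _).resolve_right (hex y hvy)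
    have hyv : B y v = 0 := by rw [h.symm, hvy]
    refine ⟨v + x, ?_, v + y, ?_, ?_⟩
    · simp [hv, hvx, hxv, hxx]
    · simp only [map_add, LinearMap.add_apply, hv, hvy, hxv, hxy]
      decide
    · simp [hv, hvy, hyv, hyy]

end one

variable {V : Type u} [AddCommGroup V] [Module (ZMod 2) V]
  {V' : Type v} [AddCommGroup V'] [Module (ZMod 2) V']

theorem step1 {B : V →ₗ[ZMod 2] V →ₗ[ZMod 2] ZMod 2} {B' : V' →ₗ[ZMod 2] V' →ₗ[ZMod 2] ZMod 2}
    (h : NS B) (h' : NS B') (v : V) (v' : V') (hv : B v v = 1) (hv' : B' v' v' = 1)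
    (f : LinearMap.ker (B v) →ₗ[ZMod 2] LinearMap.ker (B' v'))
    (hf : ∀ x y, B' (f x) (f y) = B x y) :
    ∃ e : V →ₗ[ZMod 2] V', ∀ x y, B' (e x) (e y) = B x y := by
  refine ⟨(B v).smulRight v' + (LinearMap.ker (B' v')).subtype ∘ₗ f ∘ₗ pr1 B v hv, ?_⟩
  intro x y
  have k1 : ∀ z : LinearMap.ker (B' v'), B' v' z = 0 := fun z => z.2
  have k2 : ∀ z : LinearMap.ker (B' v'), B' z v' = 0 := fun z => by rw [h'.symm]; exact z.2
  have m1 : ∀ z : LinearMap.ker (B v), B v z = 0 := fun z => z.2
  have m2 : ∀ z : LinearMap.ker (B v), B z v = 0 := fun z => by rw [h.symm]; exact z.2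
  have e1 : B' (((B v).smulRight v' + (LinearMap.ker (B' v')).subtype ∘ₗ f ∘ₗ pr1 B v hv) x)
      (((B v).smulRight v' + (LinearMap.ker (B' v')).subtype ∘ₗ f ∘ₗ pr1 B v hv) y) =
      B v x * B v y + B (pr1 B v hv x) (pr1 B v hv y) := by
    rw [← hf]
    simp [k1, k2, hv']
  have e2 : B x y = B v x * B v y + B (pr1 B v hv x) (pr1 B v hv y) := by
    conv_lhs => rw [pr1_add B v hv x, pr1_add B v hv y]
    simp [m1, m2, hv]
  rw [e1, e2]

theorem step2 {B : V →ₗ[ZMod 2] V →ₗ[ZMod 2] ZMod 2} {B' : V' →ₗ[ZMod 2] V' →ₗ[ZMod 2] ZMod 2}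
    (h : NS B) (h' : NS B') (a b : V) (a' b' : V') (ha : B a a = 0) (hb : B b b = 0)
    (hab : B a b = 1) (hba : B b a = 1) (ha' : B' a' a' = 0) (hb' : B' b' b' = 0)
    (hab' : B' a' b' = 1) (hba' : B' b' a' = 1)
    (f : (LinearMap.ker (B a) ⊓ LinearMap.ker (B b) : Submodule (ZMod 2) V) →ₗ[ZMod 2]
      (LinearMap.ker (B' a') ⊓ LinearMap.ker (B' b') : Submodule (ZMod 2) V'))
    (hf : ∀ x y, B' (f x) (f y) = B x y) :
    ∃ e : V →ₗ[ZMod 2] V', ∀ x y, B' (e x) (e y) = B x y := by
  refine ⟨(B b).smulRight a' + (B a).smulRight b' +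
    (LinearMap.ker (B' a') ⊓ LinearMap.ker (B' b')).subtype ∘ₗ f ∘ₗ
      pr2 B a b ha hb hab hba, ?_⟩
  intro x y
  have k1 : ∀ z : (LinearMap.ker (B' a') ⊓ LinearMap.ker (B' b') : Submodule (ZMod 2) V'),
    B' a' z = 0 := fun z => z.2.1
  have k2 : ∀ z : (LinearMap.ker (B' a') ⊓ LinearMap.ker (B' b') : Submodule (ZMod 2) V'),
    B' b' z = 0 := fun z => z.2.2
  have k3 : ∀ z : (LinearMap.ker (B' a') ⊓ LinearMap.ker (B' b') : Submodule (ZMod 2) V'),
    B' z a' = 0 := fun z => by rw [h'.symm]; exact z.2.1
  have k4 : ∀ z : (LinearMap.ker (B' a') ⊓ LinearMap.ker (B' b') : Submodule (ZMod 2) V'),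
    B' z b' = 0 := fun z => by rw [h'.symm]; exact z.2.2
  have m1 : ∀ z : (LinearMap.ker (B a) ⊓ LinearMap.ker (B b) : Submodule (ZMod 2) V),
    B a z = 0 := fun z => z.2.1
  have m2 : ∀ z : (LinearMap.ker (B a) ⊓ LinearMap.ker (B b) : Submodule (ZMod 2) V),
    B b z = 0 := fun z => z.2.2
  have m3 : ∀ z : (LinearMap.ker (B a) ⊓ LinearMap.ker (B b) : Submodule (ZMod 2) V),
    B z a = 0 := fun z => by rw [h.symm]; exact z.2.1
  have m4 : ∀ z : (LinearMap.ker (B a) ⊓ LinearMap.ker (B b) : Submodule (ZMod 2) V),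
    B z b = 0 := fun z => by rw [h.symm]; exact z.2.2
  have e1 : B' (((B b).smulRight a' + (B a).smulRight b' +
      (LinearMap.ker (B' a') ⊓ LinearMap.ker (B' b')).subtype ∘ₗ f ∘ₗ
      pr2 B a b ha hb hab hba) x) (((B b).smulRight a' + (B a).smulRight b' +
      (LinearMap.ker (B' a') ⊓ LinearMap.ker (B' b')).subtype ∘ₗ f ∘ₗ
      pr2 B a b ha hb hab hba) y) =
      B b x * B a y + B a x * B b y +
        B (pr2 B a b ha hb hab hba x) (pr2 B a b ha hb hab hba y) := by
    rw [← hf]
    simp [k1, k2, k3, k4, ha', hb', hab', hba']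
  have e2 : B x y = B b x * B a y + B a x * B b y +
        B (pr2 B a b ha hb hab hba x) (pr2 B a b ha hb hab hba y) := by
    conv_lhs => rw [pr2_add a b ha hb hab hba x, pr2_add a b ha hb hab hba y]
    simp [m1, m2, m3, m4, ha, hb, hab, hba]
  rw [e1, e2]


theorem exists_map : ∀ (n : ℕ) (V : Type u) [AddCommGroup V] [Module (ZMod 2) V]
    [Module.Finite (ZMod 2) V]
    (V' : Type v) [AddCommGroup V'] [Module (ZMod 2) V'] [Module.Finite (ZMod 2) V']
    (B : V →ₗ[ZMod 2] V →ₗ[ZMod 2] ZMod 2) (B' : V' →ₗ[ZMod 2] V' →ₗ[ZMod 2] ZMod 2),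
    NS B → NS B' → finrank (ZMod 2) V = n → finrank (ZMod 2) V' = n →
    ((∀ x, B x x = 0) ↔ ∀ x, B' x x = 0) →
    ∃ e : V →ₗ[ZMod 2] V', ∀ x y, B' (e x) (e y) = B x y := by
  intro n
  induction n using Nat.strong_induction_on with
  | _ n ih =>
    intro V _ _ _ V' _ _ _ B B' h h' hn hn' hiff
    by_cases hn0 : n = 0
    · subst hn0
      refine ⟨0, fun x y => ?_⟩
      have : Subsingleton V := Module.finrank_zero_iff.1 hn
      have : x = 0 := Subsingleton.elim _ _
      subst this
      simp
    by_cases halt : ∀ x, B x x = 0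
    · have halt' := hiff.1 halt
      have : Nontrivial V := Module.nontrivial_of_finrank_pos (R := ZMod 2) (by omega)
      have : Nontrivial V' := Module.nontrivial_of_finrank_pos (R := ZMod 2) (by omega)
      obtain ⟨a, ha0⟩ := exists_ne (0 : V)
      obtain ⟨a', ha0'⟩ := exists_ne (0 : V')
      have : ∃ b, B a b ≠ 0 := by
        by_contra hcon
        push Not at hcon
        exact ha0 (h.nd a hcon)
      obtain ⟨b, hb0⟩ := this
      have : ∃ b', B' a' b' ≠ 0 := by
        by_contra hcon
        push Not at hcon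
        exact ha0' (h'.nd a' hcon)
      obtain ⟨b', hb0'⟩ := this
      have hab : B a b = 1 := (z01 _).resolve_left hb0
      have hab' : B' a' b' = 1 := (z01 _).resolve_left hb0'
      have hba : B b a = 1 := by rw [h.symm, hab]
      have hba' : B' b' a' = 1 := by rw [h'.symm, hab']
      have r := finrank_ker2 a b (halt a) (halt b) hab hba
      have r' := finrank_ker2 a' b' (halt' a') (halt' b') hab' hba'
      obtain ⟨f, hf⟩ := ih (n - 2) (by omega) _ _ _ _
        (h.two a b (halt a) (halt b) hab hba) (h'.two a' b' (halt' a') (halt' b') hab' hba')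
        (by omega) (by omega)
        (by
          constructor
          · intro _ x
            exact halt' x
          · intro _ x
            exact halt x)
      exact step2 h h' a b a' b' (halt a) (halt b) hab hba (halt' a') (halt' b') hab' hba' f hf
    · have halt' : ¬ ∀ x, B' x x = 0 := fun hc => halt (hiff.2 hc)
      by_cases hn1 : n = 1
      · have hc := halt
        have hc' := halt'
        push Not at hc hc'
        obtain ⟨v, hv0⟩ := hc
        obtain ⟨v', hv0'⟩ := hc'
        have hv : B v v = 1 := (z01 _).resolve_left hv0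
        have hv' : B' v' v' = 1 := (z01 _).resolve_left hv0'
        refine step1 h h' v v' hv hv' 0 ?_
        intro x y
        have r := finrank_ker v v hv
        have : finrank (ZMod 2) (LinearMap.ker (B v)) = 0 := by omega
        have : Subsingleton (LinearMap.ker (B v)) := Module.finrank_zero_iff.1 this
        have : x = 0 := Subsingleton.elim _ _
        subst this
        simp
      · obtain ⟨v, hv, w, hw, hww⟩ := exists_good h halt (by omega)
        obtain ⟨v', hv', w', hw', hww'⟩ := exists_good h' halt' (by omega)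
        have r := finrank_ker v v hv
        have r' := finrank_ker v' v' hv'
        obtain ⟨f, hf⟩ := ih (n - 1) (by omega) _ _ _ _ (h.one v hv) (h'.one v' hv')
          (by omega) (by omega)
          (by
            constructor
            · intro hc
              have := hc ⟨w, hw⟩
              simp only [LinearMap.domRestrict₁₂_apply] at this
              rw [hww] at this
              exact absurd this one_ne_zero
            · intro hc
              have := hc ⟨w', hw'⟩
              simp only [LinearMap.domRestrict₁₂_apply] at this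
              rw [hww'] at this
              exact absurd this one_ne_zero)
        exact step1 h h' v v' hv hv' f hf

/-! ### From structures to forms -/

section form

variable {S : QStr.{u}}

open Classical in
/-- The form of a structure of local type. -/
noncomputable def fm (S : QStr.{u}) (x y : Additive S.G) : ZMod 2 :=
  if S.Split (Additive.toMul x) (Additive.toMul y) then 0 else 1

theorem fm_zero_iff (x y : Additive S.G) :
    fm S x y = 0 ↔ S.Split (Additive.toMul x) (Additive.toMul y) := by
  unfold fm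
  split_ifs with h
  · simp [h]
  · simp [h]

theorem fm_symm (hS : S.IsLocal) (x y : Additive S.G) : fm S x y = fm S y x := by
  unfold fm
  by_cases h : S.Split (Additive.toMul x) (Additive.toMul y)
  · rw [if_pos h, if_pos (hS.symm _ _ h)]
  · rw [if_neg h, if_neg fun h' => h (hS.symm _ _ h')]

theorem sq' (hS : S.IsLocal) (a b : S.G) : a * (a * b) = b := by
  rw [← mul_assoc, hS.sq, one_mul]

theorem fm_add (hS : S.IsLocal) (x y z : Additive S.G) :
    fm S x (y + z) = fm S x y + fm S x z := by
  unfold fm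
  rw [toMul_add]
  generalize Additive.toMul x = a
  generalize Additive.toMul y = b
  generalize Additive.toMul z = c
  by_cases hb : S.Split a b <;> by_cases hc : S.Split a c
  · rw [if_pos (hS.mul a b c hb hc), if_pos hb, if_pos hc]
    decide
  · have : ¬ S.Split a (b * c) := by
      intro h
      apply hc
      have := hS.mul a b (b * c) hb h
      rwa [sq' hS] at this
    rw [if_neg this, if_pos hb, if_neg hc]
    decide
  · have : ¬ S.Split a (b * c) := by
      intro h
      apply hb
      have := hS.mul a c (b * c) hc h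
      rwa [mul_comm b c, sq' hS] at this
    rw [if_neg this, if_neg hb, if_pos hc]
    decide
  · rw [if_pos (hS.index a b c hb hc), if_neg hb, if_neg hc]
    decide

theorem fm_zero (hS : S.IsLocal) (x : Additive S.G) : fm S x 0 = 0 :=
  (fm_zero_iff _ _).2 (hS.one _)

/-- The module structure. -/
noncomputable abbrev md (hS : S.IsLocal) : Module (ZMod 2) (Additive S.G) :=
  AddCommGroup.zmodModule (n := 2) (fun x => by
    rw [two_nsmul]
    exact hS.sq (Additive.toMul x))

end form

theorem exists_bilin {S : QStr.{u}} (hS : S.IsLocal) : letI := md hS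
    ∃ B : Additive S.G →ₗ[ZMod 2] Additive S.G →ₗ[ZMod 2] ZMod 2,
      (∀ x y, B x y = fm S x y) ∧ NS B := by
  let _ := md hS
  let B : Additive S.G →ₗ[ZMod 2] Additive S.G →ₗ[ZMod 2] ZMod 2 :=
    LinearMap.mk₂ (ZMod 2) (fm S)
      (fun x y z => by
        rw [fm_symm hS, fm_add hS, fm_symm hS z x, fm_symm hS z y])
      (fun c x y => by
        rcases z01 c with rfl | rfl
        · rw [zero_smul, zero_smul, fm_symm hS, fm_zero hS]
        · rw [one_smul, one_smul])
      (fun x y z => fm_add hS x y z)
      (fun c x y => by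
        rcases z01 c with rfl | rfl
        · rw [zero_smul, zero_smul, fm_zero hS]
        · rw [one_smul, one_smul])
  have hB : ∀ x y, B x y = fm S x y := fun x y => rfl
  refine ⟨B, hB, ⟨fun x y => by rw [hB, hB, fm_symm hS], fun x hx => ?_⟩⟩
  by_contra hne
  obtain ⟨b, hb⟩ := hS.nondeg (Additive.toMul x) (by
    intro h
    exact hne (by simpa using h))
  apply hb
  exact (fm_zero_iff x (Additive.ofMul b)).1 (by rw [← hB]; exact hx _)

theorem fm_self {S : QStr.{u}} (hS : S.IsLocal) (x : Additive S.G) :
    fm S x x = fm S x (Additive.ofMul S.neg) := by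
  have h1 : fm S x (Additive.ofMul S.neg + x) = 0 :=
    (fm_zero_iff _ _).2 (by simpa using hS.neg (Additive.toMul x))
  rw [fm_add hS] at h1
  have : ∀ a b : ZMod 2, a + b = 0 → b = a := by decide
  exact this _ _ h1

theorem alt_iff {S : QStr.{u}} (hS : S.IsLocal) : (∀ x, fm S x x = 0) ↔ S.neg = 1 := by
  constructor
  · intro h
    by_contra hne
    obtain ⟨b, hb⟩ := hS.nondeg S.neg hne
    apply hb
    apply hS.symm
    have := h (Additive.ofMul b)
    rw [fm_self hS, fm_zero_iff] at this
    exact this
  · intro h x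
    rw [fm_self hS, h]
    exact fm_zero hS x

end Cls


open Cls Module in
theorem exists_iso_of_isLocal (S : QStr.{u}) (T : QStr.{v}) [Finite S.G] [Finite T.G]
    (hS : S.IsLocal) (hT : T.IsLocal) (hcard : Nat.card S.G = Nat.card T.G)
    (hneg : S.neg = 1 ↔ T.neg = 1) : Nonempty (S.Iso T) := by
  let _ := md hS
  let _ := md hT
  obtain ⟨B, hB, hN⟩ := exists_bilin hS
  obtain ⟨B', hB', hN'⟩ := exists_bilin hT
  have : Finite (Additive S.G) := inferInstanceAs (Finite S.G)
  have : Finite (Additive T.G) := inferInstanceAs (Finite T.G)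
  have : Module.Finite (ZMod 2) (Additive S.G) := Module.Finite.of_finite
  have : Module.Finite (ZMod 2) (Additive T.G) := Module.Finite.of_finite
  have hfr : finrank (ZMod 2) (Additive S.G) = finrank (ZMod 2) (Additive T.G) := by
    have h1 := Module.natCard_eq_pow_finrank (K := ZMod 2) (V := Additive S.G)
    have h2 := Module.natCard_eq_pow_finrank (K := ZMod 2) (V := Additive T.G)
    have h3 : Nat.card (Additive S.G) = Nat.card (Additive T.G) := hcard
    rw [h1, h2, Nat.card_zmod] at h3
    exact Nat.pow_right_injective le_rfl h3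
  have halt : (∀ x, B x x = 0) ↔ ∀ x, B' x x = 0 := by
    have h1 := alt_iff hS
    have h2 := alt_iff hT
    simp only [hB, hB']
    rw [h1, h2, hneg]
  obtain ⟨e, he⟩ := exists_map _ _ _ B B' hN hN' rfl hfr.symm halt
  have hinj : Function.Injective e := by
    rw [injective_iff_map_eq_zero]
    intro x hx
    apply hN.nd
    intro y
    rw [← he, hx]
    simp
  have hsurj : Function.Surjective e := by
    have h3 : Nat.card (Additive S.G) = Nat.card (Additive T.G) := hcard
    exact ((Nat.bijective_iff_injective_and_card e).2 ⟨hinj, h3⟩).2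
  let F : S.G →* T.G := (MonoidHom.toAdditive (α := S.G) (β := T.G)).symm e.toAddMonoidHom
  have hF : ∀ a : S.G, Additive.ofMul (F a) = e (Additive.ofMul a) := fun a => rfl
  have hFb : Function.Bijective F := ⟨hinj, hsurj⟩
  refine ⟨⟨MulEquiv.ofBijective F hFb, ?_, ?_⟩⟩
  · change F S.neg = T.neg
    have h1 : ∀ z : Additive T.G, B' z (Additive.ofMul (F S.neg) + Additive.ofMul T.neg) = 0 := by
      intro z
      obtain ⟨x, rfl⟩ := hsurj z
      rw [map_add, hF, he, hB, hB', ← fm_self hS, ← fm_self hT, ← hB, ← hB', he]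
      exact zself _
    have h2 : Additive.ofMul (F S.neg) + Additive.ofMul T.neg = 0 := by
      apply hN'.nd
      intro z
      rw [hN'.symm]
      exact h1 z
    have h3 : F S.neg * T.neg = 1 := h2
    calc F S.neg = F S.neg * (T.neg * T.neg) := by rw [hT.sq, mul_one]
      _ = T.neg := by rw [← mul_assoc, h3, one_mul]
  · intro a b
    change S.Split a b ↔ T.Split (F a) (F b)
    have h1 := fm_zero_iff (S := S) (Additive.ofMul a) (Additive.ofMul b)
    have h2 := fm_zero_iff (S := T) (Additive.ofMul (F a)) (Additive.ofMul (F b))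
    rw [toMul_ofMul, toMul_ofMul] at h1 h2
    rw [← h1, ← h2, ← hB, ← hB', hF, hF, he]

end Pool.Agent.Hhelper86.Dyad
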