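import Pool.Agent.KRad.Basic

/-!
# A criterion for fields of local type
-/

namespace Pool.Agent.Hhelper86.Dyad

open Pool.Agent.Hhelper2 Pool.Agent.Hhelper2.Tower Pool.Agent.KRad Additive Module

universe u v

/-- If some nonzero class `q` is a value of all the maps `β x`, `x ≠ 0`, then the quaternionic
structure of the field is of local type. -/
theorem isLocal_of_common (K : Type u) [Field K] (h2 : (2 : K) ≠ 0) [Finite (SqClass K)]
    {Q : Type v} [AddCommGroup Q] [Module (ZMod 2) Q] [Finite Q]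
    (β : VV K →ₗ[ZMod 2] VV K →ₗ[ZMod 2] Q) (hβ : ∀ x y, β x y = 0 ↔ Sp K x y)
    (cs : ∀ a b c d, β a b = β c d → ∃ w, β a w = β a b ∧ β c w = β a b)
    {q : Q} (hq : q ≠ 0) (h : ∀ x : VV K, x ≠ 0 → ∃ y, β x y = q) :
    (QStr.ofField K).IsLocal := by
  classical
  have ax := QStr.ofField_axioms K h2
  obtain ⟨l, hl⟩ : ∃ l : Dual (ZMod 2) Q, l q ≠ 0 := by
    by_contra hcon
    push Not at hcon
    exact hq ((Module.forall_dual_apply_eq_zero_iff (ZMod 2) q).1 hcon)
  have z2 : ∀ a : ZMod 2, a ≠ 0 → a = 1 := by decide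
  have hl1 : l q = 1 := z2 _ hl
  -- the form `B`
  let B : VV K →ₗ[ZMod 2] VV K →ₗ[ZMod 2] ZMod 2 := β.compr₂ l
  have hB : ∀ x y, B x y = l (β x y) := fun x y => rfl
  have hinj : Function.Injective B := by
    rw [injective_iff_map_eq_zero]
    intro x hx
    by_contra hx0
    obtain ⟨y, hy⟩ := h x hx0
    have : B x y = 1 := by rw [hB, hy, hl1]
    rw [hx] at this
    exact zero_ne_one this
  have hfd : FiniteDimensional (ZMod 2) (VV K) := Module.Finite.of_finite
  have hsurj : Function.Surjective B := by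
    have e1 : finrank (ZMod 2) (VV K) = finrank (ZMod 2) (Dual (ZMod 2) (VV K)) :=
      (Subspace.dual_finrank_eq).symm
    exact (LinearMap.injective_iff_surjective_of_finrank_eq_finrank e1).1 hinj
  -- the kernel of `β x` has index at most two
  have key : ∀ x : VV K, x ≠ 0 → ∀ z, (∀ n, β x n = 0 → B z n = 0) → z = 0 ∨ z = x := by
    intro x hx z hz
    by_contra hcon
    push Not at hcon
    have hzx : z + x ≠ 0 := fun h0 => hcon.2 (Codim.eq_of_add_eq_zero h0)
    obtain ⟨n1, h1⟩ := h z hcon.1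
    obtain ⟨n2, h3⟩ := h (z + x) hzx
    obtain ⟨n, h4, h5⟩ := cs z n1 (z + x) n2 (h1.trans h3.symm)
    have h6 : β x n = 0 := by
      rw [map_add, LinearMap.add_apply, h4] at h5
      exact left_eq_add.1 h5.symm
    have h7 := hz n h6
    rw [hB, h4, h1, hl1] at h7
    exact one_ne_zero h7
  have kerB : ∀ x : VV K, x ≠ 0 → ∀ y, B x y = 0 → β x y = 0 := by
    intro x hx y hy
    by_contra hxy
    obtain ⟨f, hf, hfN⟩ : ∃ f : Dual (ZMod 2) (VV K), f y ≠ 0 ∧
        ∀ n ∈ LinearMap.ker (β x), f n = 0 := by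
      obtain ⟨f, hf, hf'⟩ := Submodule.exists_dual_map_eq_bot_of_notMem
        (p := LinearMap.ker (β x)) (x := y) hxy inferInstance
      refine ⟨f, hf, fun n hn => ?_⟩
      have h8 : f n ∈ (LinearMap.ker (β x)).map f := ⟨n, hn, rfl⟩
      rw [hf'] at h8
      exact h8
    obtain ⟨z, rfl⟩ := hsurj f
    rcases key x hx z (fun n hn => hfN n hn) with h8 | h8
    · rw [h8, map_zero] at hf
      exact hf rfl
    · rw [h8] at hf
      exact hf hy
  have idx : ∀ x b c, β x b ≠ 0 → β x c ≠ 0 → β x (b + c) = 0 := by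
    intro x b c hb hc
    by_cases hx : x = 0
    · rw [hx, map_zero] at hb
      exact absurd rfl hb
    apply kerB x hx
    have h1 : B x b = 1 := z2 _ (fun h0 => hb (kerB x hx b h0))
    have h3 : B x c = 1 := z2 _ (fun h0 => hc (kerB x hx c h0))
    rw [map_add, h1, h3]
    rfl
  refine ⟨ax.sq, ax.symm, ax.one, ax.neg, ax.mul, ?_, ?_⟩
  · intro a b c hab hac
    have h1 := idx (ofMul a) (ofMul b) (ofMul c) (fun h0 => hab ((hβ _ _).1 h0))
      (fun h0 => hac ((hβ _ _).1 h0))
    exact (hβ _ _).1 h1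
  · intro a ha
    obtain ⟨y, hy⟩ := h (ofMul a) (fun h0 => ha h0)
    refine ⟨toMul y, fun h0 => hq ?_⟩
    rw [← hy]
    exact (hβ _ _).2 h0

end Pool.Agent.Hhelper86.Dyad
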