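import Pool.Agent.KRad.QS
import Pool.Agent.Hhelper86.Dyad.Common

/-!
# Quadratic extensions of fields of local type are of local type
-/

namespace Pool.Agent.Hhelper86.Dyad

open Pool.Agent.Hhelper2 Pool.Agent.Hhelper2.Tower Pool.Agent.Hhelper2.QuadExt Pool.Agent.KRad
  Additive Module

universe u v

/-- A group is not the union of two subgroups, unless it is equal to one of them. -/
theorem exists_notMem_two {G : Type*} [Group G] (N A B : Subgroup G) (hA : ¬ N ≤ A)
    (hB : ¬ N ≤ B) : ∃ n ∈ N, n ∉ A ∧ n ∉ B := by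
  obtain ⟨x, hx, hxA⟩ := Set.not_subset.1 hA
  obtain ⟨y, hy, hyB⟩ := Set.not_subset.1 hB
  by_cases hxB : x ∈ B
  · by_cases hyA : y ∈ A
    · refine ⟨x * y, N.mul_mem hx hy, ?_, ?_⟩
      · intro h
        exact hxA ((A.mul_mem_cancel_right hyA).1 h)
      · intro h
        exact hyB ((B.mul_mem_cancel_left hxB).1 h)
    · exact ⟨y, hy, hyA, hyB⟩
  · exact ⟨x, hx, hxA, hxB⟩

section

variable {K : Type u} [Field K]

/-- The group `N(x)` of all classes `y` with `(x, y)` split. -/
def NG (hK : (QStr.ofField K).IsLocal) (x : SqClass K) : Subgroup (SqClass K) where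
  carrier := {y | FieldSplit K x y}
  mul_mem' := fun h h' => hK.mul _ _ _ h h'
  one_mem' := hK.one _
  inv_mem' := by
    intro y hy
    have h1 : y⁻¹ = y := by
      rw [inv_eq_iff_mul_eq_one]
      exact hK.sq y
    rw [h1]
    exact hy

theorem mem_NG (hK : (QStr.ofField K).IsLocal) {x y : SqClass K} :
    y ∈ NG hK x ↔ FieldSplit K x y := Iff.rfl

theorem mul_left (hK : (QStr.ofField K).IsLocal) {x x' y : SqClass K} (h : FieldSplit K x y)
    (h' : FieldSplit K x' y) : FieldSplit K (x * x') y :=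
  hK.symm _ _ (hK.mul _ _ _ (hK.symm _ _ h) (hK.symm _ _ h'))

theorem index_left (hK : (QStr.ofField K).IsLocal) {x x' y : SqClass K} (h : ¬ FieldSplit K x y)
    (h' : ¬ FieldSplit K x' y) : FieldSplit K (x * x') y :=
  hK.symm _ _ (hK.index _ _ _ (fun h0 => h (hK.symm _ _ h0)) (fun h0 => h' (hK.symm _ _ h0)))

theorem mul_self (hK : (QStr.ofField K).IsLocal) (x : SqClass K) : x * x = 1 := hK.sq x

/-- If `(x, y)` is nonsplit and `(x, y')` is split then `(x, y * y')` is nonsplit. -/
theorem not_mul (hK : (QStr.ofField K).IsLocal) {x y y' : SqClass K} (h : ¬ FieldSplit K x y)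
    (h' : FieldSplit K x y') : ¬ FieldSplit K x (y * y') := by
  intro h0
  apply h
  have h3 : FieldSplit K x (y * y' * y') := hK.mul _ _ _ h0 h'
  have h1 : y' * y' = 1 := hK.sq y'
  rw [mul_assoc, h1, mul_one] at h3
  exact h3

/-- Two different classes have different groups `N`. -/
theorem not_le (hK : (QStr.ofField K).IsLocal) {a x : SqClass K} (h1 : x ≠ 1)
    (hx : x ≠ a) : ¬ NG hK a ≤ NG hK x := by
  intro hle
  have h3 : x * a ≠ 1 := by
    intro h0
    exact hx ((eq_iff_mul x a).2 h0)
  obtain ⟨b, hb⟩ := hK.nondeg (x * a) h3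
  obtain ⟨c, hc⟩ := hK.nondeg x h1
  -- `b` is in exactly one of `N(a)`, `N(x)`
  by_cases hab : FieldSplit K a b
  · exact hb (mul_left hK (hle hab) hab)
  · by_cases hxb : FieldSplit K x b
    · -- `c ∉ N(x)`, so `c ∉ N(a)`, hence `b * c ∈ N(a)` but not in `N(x)`
      have hac : ¬ FieldSplit K a c := fun h0 => hc (hle h0)
      have h4 : FieldSplit K a (b * c) := hK.index _ _ _ hab hac
      have h5 : FieldSplit K x (b * c) := hle h4
      apply not_mul hK hc hxb
      rw [mul_comm]
      exact h5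
    · exact hb (index_left hK hxb hab)

variable {E : Type u} [Field E] {a : SqClass K} (q : QE K E a)

include q

/-- All quaternion algebras over `K` are split by `E`. -/
theorem split_res (hK : (QStr.ofField K).IsLocal) (ha : a ≠ 1) (x h : SqClass K) :
    FieldSplit E (q.res x) (q.res h) := by
  have axE := QStr.ofField_axioms E q.two_ne
  by_cases hxh : FieldSplit K x h
  · exact q.res_split _ _ hxh
  · -- choose `w` outside `N(x)` and `N(a)`
    obtain ⟨c, hc⟩ := hK.nondeg a ha
    obtain ⟨w, -, hwx, hwa⟩ := exists_notMem_two ⊤ (NG hK x) (NG hK a)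
      (fun h0 => hxh (h0 (Subgroup.mem_top h))) (fun h0 => hc (h0 (Subgroup.mem_top c)))
    have h1 : FieldSplit K x (h * w) := hK.index _ _ _ hxh hwx
    have h3 : FieldSplit K (a * x) w := index_left hK hwa hwx
    have h4 := q.res_split _ _ h1
    have h5 := q.res_split _ _ h3
    have h6 : q.res a = 1 := (q.res_one a).2 (Or.inr rfl)
    rw [map_mul, h6, one_mul] at h5
    rw [map_mul] at h4
    have h7 : FieldSplit E (q.res x) (q.res h * q.res w * q.res w) := axE.mul _ _ _ h4 h5
    have h8 : q.res w * q.res w = 1 := axE.sq _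
    rw [mul_assoc, h8, mul_one] at h7
    exact h7

/-- `(x, y)` is split over `E` if and only if `(x, N y)` is split over `K`. -/
theorem split_iff (hK : (QStr.ofField K).IsLocal) (ha : a ≠ 1) (x : SqClass K) (y : SqClass E) :
    FieldSplit E (q.res x) y ↔ FieldSplit K x (q.nm y) := by
  have axE := QStr.ofField_axioms E q.two_ne
  constructor
  · exact q.proj x y
  · intro h
    obtain ⟨w, hw⟩ := q.principle x y h
    have h1 := axE.mul _ _ _ hw (split_res q hK ha x w)
    have h8 : q.res w * q.res w = 1 := axE.sq _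
    have h9 : y * q.res w * q.res w = y := by rw [mul_assoc, h8, mul_one]
    exact h9 ▸ h1

theorem isLocal_of_QE (hK : (QStr.ofField K).IsLocal) [Finite (SqClass K)]
    (h8 : 4 ≤ Nat.card (SqClass K)) (ha : a ≠ 1) : (QStr.ofField E).IsLocal := by
  classical
  have hfinE : Finite (SqClass E) := finite_ext q
  obtain ⟨Q, _, _, _, β, hβ, symm, cs⟩ := KRad.exists_symbol E q.two_ne
  have hsp : ∀ x y : SqClass E, β (ofMul x) (ofMul y) = 0 ↔ FieldSplit E x y :=
    fun x y => hβ (ofMul x) (ofMul y)
  -- a class `x₀` different from `1` and `a`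
  obtain ⟨x₀, h01, h0a⟩ : ∃ x₀ : SqClass K, x₀ ≠ 1 ∧ x₀ ≠ a := by
    by_contra hcon
    push Not at hcon
    have : Nat.card (SqClass K) ≤ Nat.card Bool := by
      apply Nat.card_le_card_of_surjective (fun b : Bool => if b then (1 : SqClass K) else a)
      intro x
      by_cases hx : x = 1
      · exact ⟨true, by simp [hx]⟩
      · exact ⟨false, by simp [hcon x hx]⟩
    have hb : Nat.card Bool = 2 := by simp
    omega
  -- values of `β (res x)`
  have two : ∀ x : SqClass K, ∀ y y' : SqClass E, β (ofMul (q.res x)) (ofMul y) ≠ 0 →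
      β (ofMul (q.res x)) (ofMul y') ≠ 0 →
      β (ofMul (q.res x)) (ofMul y) = β (ofMul (q.res x)) (ofMul y') := by
    intro x y y' h h'
    apply Codim.eq_of_add_eq_zero
    rw [← map_add, ← ofMul_mul, hsp, split_iff q hK ha, map_mul]
    rw [Ne, hsp, split_iff q hK ha] at h h'
    exact hK.index _ _ _ h h'
  obtain ⟨n₀, hn₀, hn₀'⟩ := Set.not_subset.1 (not_le hK h01 h0a)
  obtain ⟨w₀, rfl⟩ := q.range_nm n₀ hn₀
  have hq0 : β (ofMul (q.res x₀)) (ofMul w₀) ≠ 0 := by
    rw [Ne, hsp, split_iff q hK ha]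
    exact hn₀'
  set qq := β (ofMul (q.res x₀)) (ofMul w₀) with hqq
  have main : ∀ x : SqClass K, x ≠ 1 → x ≠ a → ∃ y : SqClass E, β (ofMul (q.res x)) (ofMul y) = qq := by
    intro x hx1 hxa
    obtain ⟨n, hn, hnx, hnx₀⟩ := exists_notMem_two (NG hK a) (NG hK x) (NG hK x₀)
      (not_le hK hx1 hxa) (not_le hK h01 h0a)
    obtain ⟨w, rfl⟩ := q.range_nm n hn
    refine ⟨w, ?_⟩
    have h1 : β (ofMul (q.res x)) (ofMul w) = β (ofMul (q.res x₀)) (ofMul w) := by
      apply Codim.eq_of_add_eq_zero
      rw [← LinearMap.add_apply, ← map_add, ← ofMul_mul, ← map_mul, hsp, split_iff q hK ha]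
      exact index_left hK hnx hnx₀
    rw [h1, hqq]
    apply two
    · rw [Ne, hsp, split_iff q hK ha]
      exact hnx₀
    · exact hq0
  apply isLocal_of_common E q.two_ne β hβ cs hq0
  intro y hy
  by_cases hn : q.nm (toMul y) = 1
  · obtain ⟨h, hh⟩ := q.ker_nm _ hn
    have h1 : h ≠ 1 := by
      rintro rfl
      rw [map_one] at hh
      exact hy hh
    have h3 : h ≠ a := by
      rintro rfl
      rw [(q.res_one h).2 (Or.inr rfl)] at hh
      exact hy hh
    obtain ⟨y', hy'⟩ := main h h1 h3
    refine ⟨ofMul y', ?_⟩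
    have h4 : y = ofMul (q.res h) := hh
    rw [h4]
    exact hy'
  · obtain ⟨x, hx⟩ := hK.nondeg _ hn
    have hx' : ¬ FieldSplit K x (q.nm (toMul y)) := fun h0 => hx (hK.symm _ _ h0)
    have h1 : x ≠ 1 := by
      rintro rfl
      exact hx (hK.one _)
    have h3 : x ≠ a := by
      rintro rfl
      exact hx' (q.nm_split _)
    obtain ⟨y', hy'⟩ := main x h1 h3
    refine ⟨ofMul (q.res x), ?_⟩
    rw [symm, ← hy']
    apply two x (toMul y) y'
    · rw [Ne, hsp, split_iff q hK ha]
      exact hx'
    · rw [hy']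
      exact hq0

/-- The number of square classes of `E`. -/
theorem card_of_QE (hK : (QStr.ofField K).IsLocal) [Finite (SqClass K)] (ha : a ≠ 1) :
    4 * Nat.card (SqClass E) = Nat.card (SqClass K) ^ 2 := by
  classical
  have hfinE : Finite (SqClass E) := finite_ext q
  have h1 : Nat.card (SqClass E) = Nat.card q.nm.ker * Nat.card q.nm.range := by
    have := Subgroup.card_eq_card_quotient_mul_card_subgroup q.nm.ker
    rw [this, mul_comm]
    congr 1
    exact Nat.card_congr (QuotientGroup.quotientKerEquivRange q.nm).toEquiv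
  have h3 : Nat.card (SqClass K) = Nat.card q.res.ker * Nat.card q.res.range := by
    have := Subgroup.card_eq_card_quotient_mul_card_subgroup q.res.ker
    rw [this, mul_comm]
    congr 1
    exact Nat.card_congr (QuotientGroup.quotientKerEquivRange q.res).toEquiv
  have h4 : q.nm.ker = q.res.range := by
    ext y
    rw [MonoidHom.mem_ker, MonoidHom.mem_range]
    constructor
    · intro h
      obtain ⟨z, hz⟩ := q.ker_nm y h
      exact ⟨z, hz.symm⟩
    · rintro ⟨x, rfl⟩
      exact q.nm_res x
  have h5 : Nat.card q.res.ker = 2 := by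
    have : (q.res.ker : Set (SqClass K)) = {1, a} := by
      ext x
      rw [SetLike.mem_coe, MonoidHom.mem_ker, q.res_one]
      rfl
    have h6 : Nat.card q.res.ker = Nat.card ((q.res.ker : Set (SqClass K))) := rfl
    rw [h6, this, Nat.card_coe_set_eq, Set.ncard_pair (Ne.symm ha)]
  have h6 : q.nm.range = NG hK a := by
    ext y
    rw [MonoidHom.mem_range]
    constructor
    · rintro ⟨z, rfl⟩
      exact q.nm_split z
    · intro h
      exact q.range_nm y h
  have h7 : Nat.card (SqClass K) = 2 * Nat.card (NG hK a) := by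
    have h8 := Subgroup.card_mul_index (NG hK a)
    have h9 : (NG hK a).index = 2 := by
      rw [Subgroup.index_eq_two_iff]
      obtain ⟨c, hc⟩ := hK.nondeg a ha
      refine ⟨c, ?_⟩
      intro b
      by_cases hb : FieldSplit K a b
      · refine Or.inr ⟨hb, ?_⟩
        rw [mul_comm]
        exact not_mul hK hc hb
      · refine Or.inl ⟨?_, hb⟩
        exact hK.index _ _ _ hb hc
    rw [h9] at h8
    rw [← h8, mul_comm]
  rw [h1, h4, h6]
  rw [h5] at h3
  have e1 : Nat.card q.res.range = Nat.card (NG hK a) := by omega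
  rw [e1, h7]
  ring

end

end Pool.Agent.Hhelper86.Dyad
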