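import Pool.Agent.Hhelper86.Dyad.Unram

/-!
# Unramified extensions of `ℚ₂` are of local type, second part
-/

namespace Pool.Agent.Hhelper86.Dyad

open Pool.Agent.Hhelper2 Pool.Agent.Hhelper2.Tower Pool.Agent.Hhelper2.QuadExt Pool.Agent.KRad
  Pool.Agent.Hhelper2.FieldAx Additive Module

universe u v

set_option linter.unusedSectionVars false

namespace UR

variable {O : Type u} [CommRing O] [IsDomain O] {k : Type v} [Field k] [CharP k 2] [Finite k]
  {r : O →+* k} {K : Type u} [Field K] [Algebra O K] [IsFractionRing O K]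

theorem r_four (r : O →+* k) : r 4 = 0 := by
  have : (4 : O) = 2 * 2 := by norm_num
  rw [this, map_mul, r_two, zero_mul]

/-- The units `1 + 2 y`. -/
noncomputable def one2 (h : UR r) (y : O) : Oˣ :=
  (h.unit (1 + 2 * y) (by rw [map_add, map_mul, r_two r, map_one]; simp)).unit

theorem one2_val (h : UR r) (y : O) : (h.one2 y : O) = 1 + 2 * y := rfl

theorem cl_eq {u w : Oˣ} (hs : ∃ s : Oˣ, w = u * s ^ 2) : cl K u = cl K w := by
  obtain ⟨s, rfl⟩ := hs
  unfold cl
  rw [sqClass_eq]
  refine ⟨Units.mk0 (algebraMap O K s) (unit_ne K s), ?_⟩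
  ext
  rw [Units.val_mk0, Units.val_mul, Units.val_pow_eq_pow_val, Units.val_mul,
    Units.val_pow_eq_pow_val, map_mul, map_pow]
  rfl

theorem cl_mul (u w : Oˣ) : cl K (u * w) = cl K u * cl K w := by
  unfold cl
  rw [← QuotientGroup.mk_mul]
  congr 1
  ext
  rw [Units.val_mk0, Units.val_mul, Units.val_mul, map_mul]
  rfl

theorem cl_one : cl K (1 : Oˣ) = 1 := by
  unfold cl
  rw [one_iff]
  exact ⟨1, by rw [Units.val_mk0, Units.val_one, map_one, one_pow]⟩

/-- `1 + 4 c` is a square if `c` is in the image of the Artin-Schreier map modulo two. -/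
theorem sq_of_artin (h : UR r) (c : O) (hc : ∃ y, y ^ 2 + y = r c) :
    ∃ t : Oˣ, 1 + 4 * c = (t : O) ^ 2 := by
  obtain ⟨y, hy⟩ := hc
  obtain ⟨z, hz⟩ := h.artin c y hy
  exact ⟨h.one2 z, by rw [one2_val, ← hz]; ring⟩

theorem sq_del (h : UR r) {c₀ : O} (hc : ∀ y : k, y ^ 2 + y ≠ r c₀) (c : O)
    (hc' : ∀ y : k, y ^ 2 + y ≠ r c) : ∃ t : Oˣ, (1 + 4 * c) * h.del c₀ = (t : O) ^ 2 := by
  obtain ⟨t, ht⟩ := h.sq_of_artin (c + c₀ + 4 * c * c₀) (by
    obtain ⟨y, hy⟩ := index_two hc' hc
    refine ⟨y, ?_⟩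
    rw [hy, map_add, map_add, map_mul, map_mul, r_four r]
    ring)
  exact ⟨t, by rw [← ht, del_val]; ring⟩

/-- Units in `K`. -/
theorem exists_unit_rep (h : UR r) {x : Kˣ} (hx : Ev O (x : K)) :
    ∃ u : Oˣ, sqClass x = cl K u := by
  obtain ⟨n, u, hu⟩ := hx
  refine ⟨u, ?_⟩
  unfold cl
  rw [eq_comm, sqClass_eq]
  have hK2 : (2 : K) ≠ 0 := h.two_ne_K
  refine ⟨Units.mk0 (2 ^ n) (zpow_ne_zero n hK2), ?_⟩
  ext
  rw [hu, Units.val_mul, Units.val_pow_eq_pow_val, Units.val_mk0, Units.val_mk0, zp _ n]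
  ring

/-- Every unit is `Δ`, or `1`, or `Δ s² + 2 y` with a unit `y`, up to squares. -/
theorem trichotomy (h : UR r) {c₀ : O} (hc : ∀ y : k, y ^ 2 + y ≠ r c₀) (u : Oˣ) :
    cl K u = 1 ∨ cl K u = cl K (h.del c₀) ∨ ∃ s y : Oˣ, (u : O) = h.del c₀ * s ^ 2 + 2 * y := by
  obtain ⟨s, hs⟩ := h.exists_sqrt u
  have h1 : r ((u : O) - h.del c₀ * s ^ 2) = 0 := by
    rw [map_sub, map_mul, map_pow, hs, del_val, map_add, map_mul, r_four r, map_one]
    ring
  obtain ⟨y, hy⟩ := h.ker _ h1
  by_cases hry : r y = 0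
  · obtain ⟨y', rfl⟩ := h.ker _ hry
    -- `u = Δ s² (1 + 4 c)`
    set c : O := y' * (((h.del c₀ * s ^ 2)⁻¹ : Oˣ) : O) with hcdef
    have hcc : (h.del c₀ : O) * (s : O) ^ 2 * c = y' := by
      have := Units.mul_inv (h.del c₀ * s ^ 2)
      rw [Units.val_mul, Units.val_pow_eq_pow_val] at this
      rw [hcdef]
      linear_combination y' * this
    have hu : (u : O) = h.del c₀ * s ^ 2 * (1 + 4 * c) := by
      linear_combination hy - 4 * hcc
    by_cases hA : ∃ y, y ^ 2 + y = r c
    · obtain ⟨t, ht⟩ := h.sq_of_artin c hA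
      refine Or.inr (Or.inl (cl_eq ⟨(s * t)⁻¹, ?_⟩))
      rw [inv_pow, eq_mul_inv_iff_mul_eq]
      ext
      rw [hu, ht, Units.val_mul, Units.val_pow_eq_pow_val, Units.val_mul]
      ring
    · push Not at hA
      obtain ⟨t, ht⟩ := h.sq_del hc c hA
      refine Or.inl ?_
      rw [← cl_one (O := O)]
      refine cl_eq ⟨(s * t)⁻¹, ?_⟩
      rw [inv_pow, eq_mul_inv_iff_mul_eq, one_mul]
      ext
      rw [hu, Units.val_pow_eq_pow_val, Units.val_mul, mul_pow, ← ht]
      ring
  · obtain ⟨w, rfl⟩ := h.unit y hry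
    exact Or.inr (Or.inr ⟨s, w, by linear_combination hy⟩)

theorem od_two : Od O (2 : K) :=
  ⟨0, 1, by rw [Units.val_one, map_one, mul_one]; norm_num⟩

theorem local_of_finite (h : UR r) [Finite (SqClass K)] : (QStr.ofField K).IsLocal := by
  classical
  obtain ⟨c₀, hc⟩ := h.exists_c0
  have hK2 : (2 : K) ≠ 0 := h.two_ne_K
  have ax := QStr.ofField_axioms K hK2
  obtain ⟨Q, _, _, _, β, hβ, symm, cs⟩ := KRad.exists_symbol K hK2
  have hsp : ∀ x y : SqClass K, β (ofMul x) (ofMul y) = 0 ↔ FieldSplit K x y :=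
    fun x y => hβ (ofMul x) (ofMul y)
  set D : SqClass K := cl K (h.del c₀) with hD
  let two : Kˣ := Units.mk0 2 hK2
  have hD2 : ∀ z : Kˣ, FieldSplit K D (sqClass z) ↔ Ev O (z : K) := h.split_del hc
  have hq : β (ofMul D) (ofMul (sqClass two)) ≠ 0 := by
    rw [Ne, hsp, hD2]
    exact fun h1 => h.not_both h1 od_two
  have hodd : ∀ z : Kˣ, Od O (z : K) →
      β (ofMul D) (ofMul (sqClass z)) = β (ofMul D) (ofMul (sqClass two)) := by
    intro z hz
    apply Codim.eq_of_add_eq_zero
    rw [← map_add, ← ofMul_mul, hsp, ← QuotientGroup.mk_mul, hD2]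
    exact hz.mul_two h
  apply isLocal_of_common K hK2 β hβ cs hq
  intro x hx
  obtain ⟨x₀, hx₀⟩ := exists_rep (toMul x)
  have hxe : x = ofMul (sqClass x₀) := by rw [hx₀]; rfl
  rcases h.ev_or_od x₀.ne_zero with hev | hod
  · obtain ⟨u, hu⟩ := h.exists_unit_rep hev
    rcases h.trichotomy (K := K) hc u with h1 | h1 | ⟨s, y, hsy⟩
    · exfalso
      apply hx
      rw [hxe, hu, h1]
      rfl
    · exact ⟨ofMul (sqClass two), by rw [hxe, hu, h1]⟩
    · -- `w = u - Δ s²`
      have hw : Od O ((Units.mk0 2 hK2 * Units.mk0 (algebraMap O K y) (unit_ne K y) : Kˣ) : K) := by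
        refine ⟨0, y, ?_⟩
        rw [Units.val_mul, Units.val_mk0, Units.val_mk0]
        norm_num
      set w : Kˣ := Units.mk0 2 hK2 * Units.mk0 (algebraMap O K y) (unit_ne K y) with hwdef
      have hwv : (w : K) = algebraMap O K u - algebraMap O K (h.del c₀) *
          algebraMap O K s ^ 2 := by
        have := congrArg (algebraMap O K) hsy
        rw [map_add, map_mul, map_mul, map_pow, map_ofNat] at this
        rw [hwdef, Units.val_mul, Units.val_mk0, Units.val_mk0, this]
        ring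
      let uK : Kˣ := Units.mk0 (algebraMap O K u) (unit_ne K u)
      let dK : Kˣ := Units.mk0 (algebraMap O K (h.del c₀)) (unit_ne K _)
      have e1 : FieldSplit K (sqClass (uK * w)) (sqClass (-1 * dK * w)) := by
        rw [split_mk]
        refine ⟨1 / w, algebraMap O K s / w, ?_⟩
        have g1 : ((uK * w : Kˣ) : K) = algebraMap O K u * (w : K) := rfl
        have g2 : ((-1 * dK * w : Kˣ) : K) = -1 * algebraMap O K (h.del c₀) * (w : K) := rfl
        have hw0 : (w : K) ≠ 0 := w.ne_zero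
        rw [g1, g2]
        clear_value w
        field_simp
        rw [hwv]
        ring
      have e2 : FieldSplit K (sqClass w) (sqClass (-1) * sqClass w) := ax.neg (sqClass w)
      rw [← hsp] at e1 e2
      have e3 := hodd w hw
      refine ⟨ofMul (sqClass (-1 * dK * w)), ?_⟩
      rw [← e3, hxe, hu]
      have f1 : (ofMul (sqClass (uK * w)) : VV K) = ofMul (cl K u) + ofMul (sqClass w) := rfl
      have f2 : (ofMul (sqClass (-1 * dK * w)) : VV K) =
          ofMul (sqClass (-1)) + ofMul D + ofMul (sqClass w) := rfl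
      have f3 : (ofMul (sqClass (-1) * sqClass w) : VV K) =
          ofMul (sqClass (-1)) + ofMul (sqClass w) := rfl
      rw [f1, f2] at e1
      rw [f3] at e2
      rw [f2]
      rw [map_add (β _) (ofMul (sqClass (-1))) (ofMul (sqClass w))] at e2
      rw [map_add β, LinearMap.add_apply] at e1
      rw [Codim.eq_of_add_eq_zero e1, map_add, map_add, symm (ofMul (sqClass w)) (ofMul D)]
      have e4 : β (ofMul (sqClass w)) (ofMul (sqClass (-1))) =
        β (ofMul (sqClass w)) (ofMul (sqClass w)) := Codim.eq_of_add_eq_zero e2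
      rw [e4, add_right_comm, Codim.add_self, zero_add]
  · refine ⟨ofMul D, ?_⟩
    rw [hxe, symm]
    exact hodd x₀ hod

theorem not_ev_two (h : UR r) : ¬ Ev O (2 : K) := fun h1 => h.not_both h1 od_two

/-- If the image of a unit is a square in `K` it is a square of a unit. -/
theorem sq_descend (h : UR r) (u : Oˣ) (hu : cl K u = 1) : ∃ t : Oˣ, (u : O) = t ^ 2 := by
  unfold cl at hu
  rw [one_iff] at hu
  obtain ⟨s, hs⟩ := hu
  rw [Units.val_mk0] at hs
  have hs0 : s ≠ 0 := by
    rintro rfl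
    exact unit_ne K u (by rw [hs]; ring)
  obtain ⟨n, t, rfl⟩ := h.rep s hs0
  have h1 : (2 : K) ^ (2 * n) * algebraMap O K (t ^ 2 : Oˣ) = algebraMap O K u := by
    rw [hs, zp, Units.val_pow_eq_pow_val, map_pow]
    ring
  have h3 := h.pow_unit h1
  rw [h3, zpow_zero, one_mul] at h1
  refine ⟨t, ?_⟩
  apply IsFractionRing.injective O K
  rw [← h1, Units.val_pow_eq_pow_val]

/-- A unit congruent to one modulo two which is a square: it is `1 + 4 (t + t²)`. -/
theorem sq_mod_four (h : UR r) (t : Oˣ) (ht : r ((t : O) ^ 2) = 1) :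
    ∃ z : O, (t : O) ^ 2 = 1 + 4 * (z + z ^ 2) := by
  have h1 : r ((t : O) - 1) = 0 := by
    rw [map_sub, map_one]
    rw [map_pow] at ht
    have h3 : (r t - 1) ^ 2 = 0 := by
      rw [CharTwo.sub_eq_add, CharTwo.add_sq, ht, one_pow]
      exact CharTwo.add_self_eq_zero 1
    exact pow_eq_zero_iff two_ne_zero |>.1 h3
  obtain ⟨z, hz⟩ := h.ker _ h1
  refine ⟨z, ?_⟩
  have : (t : O) = 1 + 2 * z := by linear_combination hz
  rw [this]
  ring

/-- `-1` is not a square. -/
theorem neg_one_ne (h : UR r) : sqClass (-1 : Kˣ) ≠ 1 := by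
  intro h0
  have h1 : cl K (-1 : Oˣ) = 1 := by
    rw [← h0]
    unfold cl
    congr 1
    ext
    rw [Units.val_mk0, Units.val_neg, Units.val_one, map_neg, map_one, Units.val_neg,
      Units.val_one]
  obtain ⟨t, ht⟩ := h.sq_descend _ h1
  obtain ⟨z, hz⟩ := h.sq_mod_four t (by
    rw [← ht, Units.val_neg, Units.val_one, map_neg, map_one, CharTwo.neg_eq])
  rw [← ht, Units.val_neg, Units.val_one] at hz
  have h3 : (2 : O) * (1 + 2 * (z + z ^ 2)) = 0 := by linear_combination -hz
  have h4 : (1 : O) + 2 * (z + z ^ 2) = 0 := (mul_eq_zero.1 h3).resolve_left h.two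
  have h5 := congrArg r h4
  rw [map_add, map_mul, r_two, zero_mul, map_one, map_zero, add_zero] at h5
  exact one_ne_zero h5

theorem del_ne (h : UR r) {c₀ : O} (hc : ∀ y : k, y ^ 2 + y ≠ r c₀) : cl K (h.del c₀) ≠ 1 := by
  intro h0
  have hK2 : (2 : K) ≠ 0 := h.two_ne_K
  have h1 := (h.split_del (K := K) hc (Units.mk0 2 hK2)).1 (by
    rw [h0]
    have ax := QStr.ofField_axioms K hK2
    exact ax.symm _ _ (ax.one _))
  exact h.not_ev_two (K := K) h1

/-- A parametrisation of the square classes. -/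
noncomputable def par (h : UR r) (c₀ : O) (g : k → O) (K : Type u) [Field K] [Algebra O K]
    [IsFractionRing O K] (x : Bool × Bool × k) : SqClass K :=
  (if x.1 then sqClass (Units.mk0 (2 : K) h.two_ne_K) else 1) *
    ((if x.2.1 then cl K (h.del c₀) else 1) * cl K (h.one2 (g x.2.2)))

theorem par_surjective (h : UR r) {c₀ : O} (hc : ∀ y : k, y ^ 2 + y ≠ r c₀) {g : k → O}
    (hg : ∀ c, r (g c) = c) : Function.Surjective (h.par c₀ g K) := by
  have hK2 : (2 : K) ≠ 0 := h.two_ne_K
  have hsq : ∀ a : SqClass K, a * a = 1 := (QStr.ofField_axioms K hK2).sq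
  -- classes of units
  have main : ∀ u : Oˣ, ∃ (j : Bool) (c : k),
      cl K u = (if j then cl K (h.del c₀) else 1) * cl K (h.one2 (g c)) := by
    intro u
    obtain ⟨s, hs⟩ := h.exists_sqrt u
    -- `u = s² (1 + 2 y)`
    obtain ⟨y, hy⟩ : ∃ y, (u : O) = s ^ 2 * (1 + 2 * y) := by
      obtain ⟨y, hy⟩ := h.ker ((u : O) - s ^ 2) (by rw [map_sub, map_pow, hs, sub_self])
      refine ⟨y * (((s ^ 2)⁻¹ : Oˣ) : O), ?_⟩
      have := Units.mul_inv (s ^ 2)
      rw [Units.val_pow_eq_pow_val] at this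
      linear_combination hy - 2 * y * this
    obtain ⟨d, hd⟩ := h.ker (y - g (r y)) (by rw [map_sub, hg, sub_self])
    -- `1 + 2 y = (1 + 2 g) (1 + 4 e)`
    set w := h.one2 (g (r y)) with hw
    set e : O := d * ((w⁻¹ : Oˣ) : O) with he
    have hwe : (w : O) * e = d := by
      rw [he]
      have := Units.mul_inv w
      linear_combination d * this
    have h1 : (u : O) = s ^ 2 * (w * (1 + 4 * e)) := by
      have hwv : (w : O) = 1 + 2 * g (r y) := rfl
      rw [hy]
      linear_combination (2 * (s : O) ^ 2) * hd - (4 * (s : O) ^ 2) * hwe - (s : O) ^ 2 * hwv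
    by_cases hA : ∃ y, y ^ 2 + y = r e
    · obtain ⟨t, ht⟩ := h.sq_of_artin e hA
      refine ⟨false, r y, ?_⟩
      simp only [Bool.false_eq_true, if_false, one_mul]
      refine cl_eq ⟨(s * t)⁻¹, ?_⟩
      rw [inv_pow, eq_mul_inv_iff_mul_eq]
      ext
      rw [h1, ht, Units.val_mul, Units.val_pow_eq_pow_val, Units.val_mul]
      ring
    · push Not at hA
      obtain ⟨t, ht⟩ := h.sq_del hc e hA
      refine ⟨true, r y, ?_⟩
      simp only [if_true]
      rw [← cl_mul]
      refine cl_eq ⟨h.del c₀ * (s * t)⁻¹, ?_⟩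
      have h3 : (u : O) * h.del c₀ = s ^ 2 * t ^ 2 * w := by
        rw [← ht, h1]
        ring
      have h4 : u * h.del c₀ = (s * t) ^ 2 * w := by
        ext
        rw [Units.val_mul, h3, Units.val_mul, Units.val_pow_eq_pow_val, Units.val_mul]
        ring
      rw [mul_pow, inv_pow]
      have h5 : u * (h.del c₀ ^ 2 * ((s * t) ^ 2)⁻¹) = (u * h.del c₀) * h.del c₀ *
          ((s * t) ^ 2)⁻¹ := by
        rw [pow_two (h.del c₀)]
        group
      rw [h5, h4]
      rw [mul_comm ((s * t) ^ 2) w, mul_comm (w * _) (h.del c₀), mul_assoc, mul_assoc,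
        mul_inv_cancel, mul_one]
  intro x
  obtain ⟨x, rfl⟩ := exists_rep x
  rcases h.ev_or_od x.ne_zero with hev | hod
  · obtain ⟨u, hu⟩ := h.exists_unit_rep hev
    obtain ⟨j, c, hjc⟩ := main u
    exact ⟨(false, j, c), by simp only [par, Bool.false_eq_true, if_false, one_mul, hu, hjc]⟩
  · have hev : Ev O ((x * Units.mk0 2 hK2 : Kˣ) : K) := hod.mul_two h
    obtain ⟨u, hu⟩ := h.exists_unit_rep hev
    obtain ⟨j, c, hjc⟩ := main u
    refine ⟨(true, j, c), ?_⟩
    simp only [par, if_true]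
    rw [← hjc, ← hu]
    show sqClass (Units.mk0 2 hK2) * (sqClass x * sqClass (Units.mk0 2 hK2)) = sqClass x
    rw [mul_comm (sqClass x), ← mul_assoc, hsq, one_mul]

theorem par_injective (h : UR r) {c₀ : O} (hc : ∀ y : k, y ^ 2 + y ≠ r c₀) {g : k → O}
    (hg : ∀ c, r (g c) = c) : Function.Injective (h.par c₀ g K) := by
  have hK2 : (2 : K) ≠ 0 := h.two_ne_K
  have ax := QStr.ofField_axioms K hK2
  have hsq : ∀ a : SqClass K, a * a = 1 := ax.sq
  have hev : ∀ u : Oˣ, FieldSplit K (cl K (h.del c₀)) (cl K u) := by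
    intro u
    have := (h.split_del (K := K) hc (Units.mk0 _ (unit_ne K u))).2
      ⟨0, u, by rw [mul_zero, zpow_zero, one_mul]; rfl⟩
    exact this
  have h2 : ¬ FieldSplit K (cl K (h.del c₀)) (sqClass (Units.mk0 2 hK2)) := by
    rw [h.split_del hc]
    exact h.not_ev_two
  -- the class of `par` is even iff the first coordinate is `false`
  have hfirst : ∀ x, FieldSplit K (cl K (h.del c₀)) (h.par c₀ g K x) ↔ x.1 = false := by
    rintro ⟨i, j, c⟩
    have h3 : FieldSplit K (cl K (h.del c₀)) ((if j then cl K (h.del c₀) else 1) *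
        cl K (h.one2 (g c))) := by
      apply ax.mul
      · cases j
        · exact ax.one _
        · exact hev _
      · exact hev _
    cases i
    · simp only [par, Bool.false_eq_true, if_false, one_mul, iff_true]
      exact h3
    · simp only [par, if_true, Bool.true_eq_false, iff_false]
      intro h4
      apply h2
      generalize ((if j then cl K (h.del c₀) else 1) * cl K (h.one2 (g c)) : SqClass K) = P
        at h3 h4
      have h5 : FieldSplit K (cl K (h.del c₀)) (sqClass (Units.mk0 2 hK2) * P * P) :=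
        ax.mul _ _ _ h4 h3
      rw [mul_assoc, hsq P, mul_one] at h5
      exact h5
  -- units
  have hunit : ∀ (a : Bool) (c c' : k), (if a then cl K (h.del c₀) else 1) *
      (cl K (h.one2 (g c)) * cl K (h.one2 (g c'))) = 1 → a = false ∧ c = c' := by
    intro a c c' hac
    have h3 : ∃ w : Oˣ, ((w : O) = 1 + 4 * c₀ ∨ (w : O) = 1) ∧ cl K w =
        (if a then cl K (h.del c₀) else 1) := by
      cases a
      · exact ⟨1, Or.inr Units.val_one, by rw [cl_one]; simp⟩
      · exact ⟨h.del c₀, Or.inl rfl, by simp⟩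
    obtain ⟨w, hw, hwc⟩ := h3
    rw [← hwc, ← cl_mul, ← cl_mul] at hac
    obtain ⟨t, ht⟩ := h.sq_descend _ hac
    rw [Units.val_mul, Units.val_mul, one2_val, one2_val] at ht
    have hrw : r w = 1 := by
      rcases hw with hw | hw
      · rw [hw, map_add, map_mul, r_four, zero_mul, map_one, add_zero]
      · rw [hw, map_one]
    obtain ⟨z, hz⟩ := h.sq_mod_four t (by
      rw [← ht, map_mul, hrw, map_mul, map_add, map_add, map_mul, map_mul, r_two, map_one]
      ring)
    rw [hz] at ht
    have h4 : ∃ e : O, 2 * (g c + g c') = 4 * e := by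
      rcases hw with hw | hw
      · exact ⟨z + z ^ 2 - c₀ * ((1 + 2 * g c) * (1 + 2 * g c')) - g c * g c', by
          rw [hw] at ht
          linear_combination ht⟩
      · exact ⟨z + z ^ 2 - g c * g c', by
          rw [hw] at ht
          linear_combination ht⟩
    obtain ⟨e, he⟩ := h4
    have h5 : g c + g c' = 2 * e := by
      have : (2 : O) * (g c + g c' - 2 * e) = 0 := by linear_combination he
      have := (mul_eq_zero.1 this).resolve_left h.two
      linear_combination this
    have h6 : c = c' := by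
      have := congrArg r h5
      rw [map_add, hg, hg, map_mul, r_two, zero_mul] at this
      exact CharTwo.add_eq_zero.1 this
    refine ⟨?_, h6⟩
    rw [← h6, cl_mul, cl_mul, hsq, mul_one, hwc] at hac
    cases a
    · rfl
    · exact absurd hac (by simpa using h.del_ne hc)
  rintro ⟨i, j, c⟩ ⟨i', j', c'⟩ heq
  have hi : i = i' := by
    have h3 := hfirst (i, j, c)
    have h4 := hfirst (i', j', c')
    rw [heq] at h3
    have h5 : i = false ↔ i' = false := h3.symm.trans h4
    clear * - h5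
    revert h5
    revert i i'
    decide
  subst hi
  have h3 : (if j then cl K (h.del c₀) else 1) * cl K (h.one2 (g c)) =
      (if j' then cl K (h.del c₀) else 1) * cl K (h.one2 (g c')) := by
    have := heq
    simp only [par] at this
    exact mul_left_cancel this
  have h4 : (if (xor j j') then cl K (h.del c₀) else 1) *
      (cl K (h.one2 (g c)) * cl K (h.one2 (g c'))) = 1 := by
    have h5 : (if (xor j j') then cl K (h.del c₀) else 1) =
        (if j then cl K (h.del c₀) else 1) * (if j' then cl K (h.del c₀) else 1) := by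
      cases j <;> cases j' <;> simp [hsq]
    rw [h5]
    calc _ = ((if j then cl K (h.del c₀) else 1) * cl K (h.one2 (g c))) *
          ((if j' then cl K (h.del c₀) else 1) * cl K (h.one2 (g c'))) := by
          rw [mul_mul_mul_comm]
      _ = 1 := by rw [h3, hsq]
  obtain ⟨h5, h6⟩ := hunit _ _ _ h4
  have h7 : j = j' := by
    clear * - h5
    revert h5
    revert j j'
    decide
  rw [h6, h7]

theorem card_sqClass (h : UR r) : Finite (SqClass K) ∧ Nat.card (SqClass K) = 4 * Nat.card k := by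
  classical
  obtain ⟨c₀, hc⟩ := h.exists_c0
  obtain ⟨g, hg⟩ := h.surj.hasRightInverse
  have h1 := h.par_surjective (K := K) hc (g := g) hg
  have h3 := h.par_injective (K := K) hc (g := g) hg
  refine ⟨Finite.of_surjective _ h1, ?_⟩
  rw [← Nat.card_congr (Equiv.ofBijective _ ⟨h3, h1⟩), Nat.card_prod, Nat.card_prod]
  simp only [Nat.card_eq_fintype_card (α := Bool), Fintype.card_bool]
  ring

/-- Main result on unramified extensions of `ℚ₂`. -/
theorem isLocal (h : UR r) : (QStr.ofField K).IsLocal := by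
  have := (h.card_sqClass (K := K)).1
  exact h.local_of_finite

end UR

end Pool.Agent.Hhelper86.Dyad
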