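import Pool.Agent.Hhelper86.Dyad.Unram

/-!
# Witt vectors
-/

namespace Pool.Agent.Hhelper86.Dyad

open WittVector Polynomial

set_option linter.unusedSectionVars false
set_option linter.style.haveILetI false

section ur

variable (k : Type) [Field k] [CharP k 2] [PerfectRing k 2]

theorem ur_witt : UR (constantCoeff : WittVector 2 k →+* k) where
  surj := constantCoeff_surjective 2
  ker x hx := by
    have h1 : x ∈ RingHom.ker (constantCoeff : WittVector 2 k →+* k) := hx
    rw [WittVector.ker_constantCoeff, Ideal.mem_span_singleton] at h1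
    obtain ⟨y, hy⟩ := h1
    exact ⟨y, hy⟩
  unit x hx := isUnit_of_coeff_zero_ne_zero x hx
  fac x hx := by
    obtain ⟨m, b, hb⟩ := exists_eq_pow_p_mul' x hx
    exact ⟨m, b, hb⟩
  hens d hd := by
    have h1 : d ∈ Ideal.span {((2 : ℕ) : WittVector 2 k)} := by
      rw [← WittVector.ker_constantCoeff]
      exact hd
    let f : (WittVector 2 k)[X] := X ^ 2 - X + C d
    have hf : f.Monic := by
      have : f = X ^ 2 - (X - C d) := by
        show X ^ 2 - X + C d = _
        ring
      rw [this]
      apply monic_X_pow_sub
      exact lt_of_le_of_lt (degree_X_sub_C_le d) (by norm_num)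
    have hfe : f.eval 1 = d := by
      simp [f]
    have hfd : f.derivative.eval 1 = 1 := by
      simp only [f, derivative_add, derivative_sub, derivative_X_pow, derivative_X, derivative_C,
        eval_add, eval_sub, eval_mul, eval_pow, eval_X, eval_one, eval_zero, eval_C]
      norm_num
    obtain ⟨a, ha, ha1⟩ := HenselianRing.is_henselian (I := Ideal.span {((2 : ℕ) : WittVector 2 k)})
      f hf 1 (by rw [hfe]; exact h1) (by rw [hfd, map_one]; exact isUnit_one)
    refine ⟨a, ?_, ?_⟩
    · have := ha
      rw [IsRoot.def] at this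
      simpa [f] using this
    · rw [← WittVector.ker_constantCoeff, RingHom.mem_ker, map_sub, map_one, sub_eq_zero] at ha1
      exact ha1
  two := by
    have := WittVector.p_nonzero 2 k
    exact_mod_cast this

end ur

section precomplete

variable {A : Type*} [CommRing A] (p : A) {ι : Type*}

theorem mem_pow_smul (n : ℕ) (x : ι → A) :
    x ∈ ((Ideal.span {p}) ^ n • ⊤ : Submodule A (ι → A)) ↔ ∀ i, x i ∈ (Ideal.span {p}) ^ n := by
  rw [Ideal.span_singleton_pow, Submodule.ideal_span_singleton_smul,
    Submodule.mem_smul_pointwise_iff_exists]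
  constructor
  · rintro ⟨y, -, rfl⟩ i
    rw [Ideal.mem_span_singleton]
    exact ⟨y i, rfl⟩
  · intro h
    choose y hy using fun i => Ideal.mem_span_singleton.1 (h i)
    exact ⟨y, trivial, by ext i; rw [Pi.smul_apply, smul_eq_mul, hy i]⟩

theorem precomplete_pi [IsPrecomplete (Ideal.span {p}) A] :
    IsPrecomplete (Ideal.span {p}) (ι → A) where
  prec' := by
    intro f hf
    have h1 : ∀ i, ∃ L : A, ∀ n, f n i ≡ L [SMOD (Ideal.span {p} ^ n • ⊤ : Submodule A A)] := by
      intro i
      apply IsPrecomplete.prec (I := Ideal.span {p}) inferInstance (f := fun n => f n i)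
      intro m n hmn
      have := hf hmn
      rw [SModEq.sub_mem, mem_pow_smul] at this
      rw [SModEq.sub_mem, smul_eq_mul, Ideal.mul_top]
      exact this i
    choose L hL using h1
    refine ⟨L, fun n => ?_⟩
    rw [SModEq.sub_mem, mem_pow_smul]
    intro i
    have := hL i n
    rw [SModEq.sub_mem, smul_eq_mul, Ideal.mul_top] at this
    exact this

end precomplete

section finite

variable (k : Type) [Field k] [CharP k 2] [Finite k]

/-- The structure map of the ring of Witt vectors over `ℤ_[2]`. -/
noncomputable def str : ℤ_[2] →+* WittVector 2 k :=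
  (WittVector.map (ZMod.castHom (dvd_refl 2) k)).comp (WittVector.fromPadicInt 2)

theorem str_injective : Function.Injective (str k) := by
  have h1 : Function.Injective (WittVector.map (p := 2) (ZMod.castHom (dvd_refl 2) k)) :=
    WittVector.map_injective _ (RingHom.injective _)
  exact h1.comp (WittVector.equiv 2).symm.injective

theorem constantCoeff_natCast (n : ℕ) :
    WittVector.constantCoeff ((n : ℕ) : WittVector 2 k) = (n : k) := map_natCast _ n

theorem finite_str : (str k).Finite := by
  have : Fintype k := Fintype.ofFinite k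
  letI : Algebra ℤ_[2] (WittVector 2 k) := (str k).toAlgebra
  show Module.Finite ℤ_[2] (WittVector 2 k)
  letI : Algebra (ZMod 2) k := ZMod.algebra k 2
  have : FiniteDimensional (ZMod 2) k := Module.Finite.of_finite
  let b := Module.finBasis (ZMod 2) k
  have hg : ∀ i, ∃ w : WittVector 2 k, WittVector.constantCoeff w = b i := fun i =>
    WittVector.constantCoeff_surjective 2 (b i)
  choose g hg using hg
  let f : (Fin (Module.finrank (ZMod 2) k) → ℤ_[2]) →ₗ[ℤ_[2]] WittVector 2 k :=
    Fintype.linearCombination ℤ_[2] g
  have hI : (Ideal.span {(2 : ℤ_[2])}).map (algebraMap ℤ_[2] (WittVector 2 k)) =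
      Ideal.span {((2 : ℕ) : WittVector 2 k)} := by
    rw [Ideal.map_span, Set.image_singleton, map_ofNat]
    rfl
  have haus : IsHausdorff (Ideal.span {(2 : ℤ_[2])}) (WittVector 2 k) := by
    rw [← IsHausdorff.map_algebraMap_iff (S := WittVector 2 k), hI]
    infer_instance
  have hprec : IsPrecomplete (Ideal.span {(2 : ℤ_[2])}) ℤ_[2] := by
    have h1 : IsLocalRing.maximalIdeal ℤ_[2] = Ideal.span {(2 : ℤ_[2])} := by
      rw [PadicInt.maximalIdeal_eq_span_p]
      norm_num
    rw [← h1]
    infer_instance
  have hpi : IsPrecomplete (Ideal.span {(2 : ℤ_[2])})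
      (Fin (Module.finrank (ZMod 2) k) → ℤ_[2]) := precomplete_pi _
  have hsurj : Function.Surjective f := by
    apply surjective_of_mkQ_comp_surjective (I := Ideal.span {(2 : ℤ_[2])})
    intro y
    obtain ⟨y, rfl⟩ := Submodule.mkQ_surjective _ y
    refine ⟨fun i => ((b.repr (WittVector.constantCoeff y) i).val : ℤ_[2]), ?_⟩
    rw [LinearMap.comp_apply, ← sub_eq_zero, ← map_sub, Submodule.mkQ_apply,
      Submodule.Quotient.mk_eq_zero, Submodule.ideal_span_singleton_smul,
      Submodule.mem_smul_pointwise_iff_exists]
    have h1 : WittVector.constantCoeff (f (fun i =>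
        ((b.repr (WittVector.constantCoeff y) i).val : ℤ_[2])) - y) = 0 := by
      rw [map_sub, sub_eq_zero]
      show WittVector.constantCoeff (Fintype.linearCombination ℤ_[2] g _) = _
      rw [Fintype.linearCombination_apply, map_sum]
      conv_rhs => rw [← b.sum_repr (WittVector.constantCoeff y)]
      apply Finset.sum_congr rfl
      intro i _
      rw [Algebra.smul_def, map_mul, hg, map_natCast, constantCoeff_natCast, Algebra.smul_def]
      congr 1
    have h2 : f (fun i => ((b.repr (WittVector.constantCoeff y) i).val : ℤ_[2])) - y ∈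
        RingHom.ker (WittVector.constantCoeff : WittVector 2 k →+* k) := h1
    rw [WittVector.ker_constantCoeff, Ideal.mem_span_singleton] at h2
    obtain ⟨z, hz⟩ := h2
    refine ⟨z, trivial, ?_⟩
    rw [hz, Algebra.smul_def, map_ofNat]
    norm_num
  exact Module.Finite.of_surjective f hsurj

/-- The fraction field of the ring of Witt vectors is a finite extension of `ℚ_[2]`. -/
theorem exists_alg : ∃ _ : Algebra ℚ_[2] (FractionRing (WittVector 2 k)),
    FiniteDimensional ℚ_[2] (FractionRing (WittVector 2 k)) := by
  have : Fintype k := Fintype.ofFinite k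
  let alg0 : Algebra ℤ_[2] (WittVector 2 k) := (str k).toAlgebra
  have hfin : Module.Finite ℤ_[2] (WittVector 2 k) := finite_str k
  have hinj : Function.Injective (algebraMap ℤ_[2] (WittVector 2 k)) := str_injective k
  have ht : IsScalarTower ℤ_[2] (WittVector 2 k) (FractionRing (WittVector 2 k)) := inferInstance
  have hinj' : Function.Injective (algebraMap ℤ_[2] (FractionRing (WittVector 2 k))) := by
    rw [IsScalarTower.algebraMap_eq ℤ_[2] (WittVector 2 k) (FractionRing (WittVector 2 k))]
    exact (IsFractionRing.injective (WittVector 2 k) (FractionRing (WittVector 2 k))).comp hinj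
  let alg : Algebra ℚ_[2] (FractionRing (WittVector 2 k)) :=
    (IsFractionRing.lift hinj').toAlgebra
  have ht' : IsScalarTower ℤ_[2] ℚ_[2] (FractionRing (WittVector 2 k)) :=
    IsScalarTower.of_algebraMap_eq (fun x => (IsFractionRing.lift_algebraMap hinj' x).symm)
  refine ⟨alg, ?_⟩
  have hint : Algebra.IsIntegral ℤ_[2] (WittVector 2 k) := inferInstance
  have hic : IsIntegrallyClosed (WittVector 2 k) := inferInstance
  have h1 : IsIntegralClosure (WittVector 2 k) ℤ_[2] (FractionRing (WittVector 2 k)) :=
    IsIntegralClosure.of_isIntegrallyClosed _ _ _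
  have h2 : Algebra.IsAlgebraic ℚ_[2] (FractionRing (WittVector 2 k)) :=
    isAlgebraic_of_isFractionRing ℤ_[2] (WittVector 2 k) ..
  have hM : IsLocalization (Algebra.algebraMapSubmonoid (WittVector 2 k)
      (nonZeroDivisors ℤ_[2])) (FractionRing (WittVector 2 k)) :=
    IsIntegralClosure.isLocalization _ ℚ_[2] _ _
  exact Module.Finite.of_isLocalization ℤ_[2] (WittVector 2 k) (nonZeroDivisors ℤ_[2])

end finite

end Pool.Agent.Hhelper86.Dyad
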