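import Pool.Agent.Hhelper2.Elem
import Pool.Agent.Hhelper2.Four
import Pool.Agent.Hhelper86.Dyad.Classify
import Pool.Agent.Hhelper86.Dyad.Quad
import Pool.Agent.Hhelper86.Dyad.UnramB
import Pool.Agent.Hhelper86.Dyad.Witt

/-!
# Finite structures of local type are elementary

Every finite quaternionic structure of local type is isomorphic to the structure of `ℂ`, of `ℝ`, of
a finite extension of `ℚ_[2]`, or to a group extension of the structure of `𝔽₃`, or to a two-fold
group extension of the structure of `ℂ`.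
-/

namespace Pool.Agent.Hhelper86.Dyad

open Pool.Agent.Hhelper2 Pool.Agent.Hhelper2.Tower Pool.Agent.Hhelper2.QuadExt Pool.Agent.KRad
  Additive Module

universe u v

/-- Unramified dyadic fields. -/
theorem exists_unram (m : ℕ) (hm : m ≠ 0) : ∃ (K : Type) (_ : Field K) (_ : Algebra ℚ_[2] K),
    FiniteDimensional ℚ_[2] K ∧ Finite (SqClass K) ∧ Nat.card (SqClass K) = 4 * 2 ^ m ∧
      (QStr.ofField K).IsLocal ∧ sqClass (-1 : Kˣ) ≠ 1 := by
  have hfin : Finite (GaloisField 2 m) := inferInstance
  obtain ⟨alg, hfd⟩ := exists_alg (GaloisField 2 m)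
  have hur := ur_witt (GaloisField 2 m)
  have hc := hur.card_sqClass (K := FractionRing (WittVector 2 (GaloisField 2 m)))
  refine ⟨FractionRing (WittVector 2 (GaloisField 2 m)), inferInstance, alg, hfd, hc.1, ?_,
    hur.isLocal, hur.neg_one_ne⟩
  rw [hc.2, GaloisField.card 2 m hm]

/-- Dyadic fields containing a square root of `-1`. -/
theorem exists_unram_i (m : ℕ) (hm : m ≠ 0) : ∃ (K : Type) (_ : Field K) (_ : Algebra ℚ_[2] K),
    FiniteDimensional ℚ_[2] K ∧ Finite (SqClass K) ∧ Nat.card (SqClass K) = 4 * 4 ^ m ∧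
      (QStr.ofField K).IsLocal ∧ sqClass (-1 : Kˣ) = 1 := by
  obtain ⟨K, _, _, hfd, hfin, hcard, hloc, hneg⟩ := exists_unram m hm
  have h2 : (2 : K) ≠ 0 := by
    have h0 := (algebraMap ℚ_[2] K).injective
    intro h
    have : algebraMap ℚ_[2] K 2 = algebraMap ℚ_[2] K 0 := by rw [map_ofNat, h, map_zero]
    exact two_ne_zero (h0 this)
  have hns' : ¬ ∃ t : K, ((-1 : Kˣ) : K) = t ^ 2 := fun h => hneg ((one_iff _).2 h)
  have hns : ∀ r : K, r ^ 2 ≠ (-1 : K) + 0 * r := by
    intro r hr
    apply hns'
    exact ⟨r, by rw [hr, Units.val_neg, Units.val_one]; ring⟩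
  have hfact : Fact (∀ r : K, r ^ 2 ≠ (-1 : K) + 0 * r) := ⟨hns⟩
  let E := QuadraticAlgebra K (-1 : K) 0
  let α : E := ⟨0, 1⟩
  have hα : α ^ 2 = algebraMap K E ((-1 : Kˣ) : K) := by
    have h3 := elt_sqrt (a := (-1 : K)) 1
    rw [one_pow, mul_one] at h3
    rw [Units.val_neg, Units.val_one]
    exact h3.symm
  obtain ⟨q, -, -⟩ := exists_QS (K := K) (E := E) h2 (QuadraticAlgebra.finrank_eq_two _ _)
    (-1 : Kˣ) α hα hns'
  have hfdE : FiniteDimensional K E := inferInstance
  have htower : IsScalarTower ℚ_[2] K E := by infer_instance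
  have hfin' : Finite (SqClass E) := finite_ext q.toQE
  have hc := card_of_QE q.toQE hloc hneg
  refine ⟨E, inferInstance, inferInstance, FiniteDimensional.trans ℚ_[2] K E, hfin', ?_,
    isLocal_of_QE q.toQE hloc (by rw [hcard]; have := Nat.one_le_two_pow (n := m); omega) hneg, ?_⟩
  · rw [hcard, mul_pow, ← pow_mul, mul_comm m 2, pow_mul] at hc
    norm_num at hc
    omega
  · rw [← q.res_neg]
    exact (q.res_one _).2 (Or.inr rfl)

/-- Nondegenerate alternating forms have even dimension. -/
theorem even_of_alt : ∀ (n : ℕ) (V : Type u) [AddCommGroup V] [Module (ZMod 2) V]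
    [Module.Finite (ZMod 2) V] (B : V →ₗ[ZMod 2] V →ₗ[ZMod 2] ZMod 2), Cls.NS B →
    (∀ x, B x x = 0) → finrank (ZMod 2) V = n → Even n := by
  intro n
  induction n using Nat.strong_induction_on with
  | _ n ih =>
    intro V _ _ _ B h halt hn
    by_cases hn0 : n = 0
    · rw [hn0]
      exact Even.zero
    have : Nontrivial V := Module.nontrivial_of_finrank_pos (R := ZMod 2) (by omega)
    obtain ⟨a, ha0⟩ := exists_ne (0 : V)
    obtain ⟨b, hb0⟩ : ∃ b, B a b ≠ 0 := by
      by_contra hcon
      push Not at hcon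
      exact ha0 (h.nd a hcon)
    have hab : B a b = 1 := (Cls.z01 _).resolve_left hb0
    have hba : B b a = 1 := by rw [h.symm, hab]
    have h1 := Cls.finrank_ker2 a b (halt a) (halt b) hab hba
    have h2 := ih (n - 2) (by omega) _ _ (h.two a b (halt a) (halt b) hab hba)
      (fun x => halt _) (by omega)
    have h3 : n = (n - 2) + 2 := by omega
    rw [h3]
    exact h2.add even_two

/-- The totally split structure with two elements. -/
def two0 (ν : Multiplicative (ZMod 2)) : QStr.{0} where
  G := Multiplicative (ZMod 2)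
  neg := ν
  Split _ _ := True

/-- The totally split structure with two elements, in any universe. -/
def twoU (ν : Multiplicative (ZMod 2)) : QStr.{u} where
  G := ULift.{u} (Multiplicative (ZMod 2))
  neg := ⟨ν⟩
  Split _ _ := True

def twoIso (ν : Multiplicative (ZMod 2)) : (two0 ν).Iso (twoU.{u} ν) where
  e := MulEquiv.ulift.symm
  map_neg := rfl
  map_split _ _ := Iff.rfl

theorem isElementary_twoU (ν : Multiplicative (ZMod 2)) : IsElementary (twoU.{u} ν) := by
  refine QStr.isElementary_totallySplit _ (twoU.{u} ν)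
    (inferInstanceAs (Finite (ULift.{u} (Multiplicative (ZMod 2))))) rfl ?_ (fun _ _ => trivial)
  rintro ⟨a⟩
  have : ∀ a : Multiplicative (ZMod 2), a * a = 1 := by decide
  exact congrArg ULift.up (this a)

/-- The splitting relation of the group extension of `two0 ν`. -/
def sp2 (ν : Multiplicative (ZMod 2))
    (x y : Multiplicative (ZMod 2) × Multiplicative (ZMod 2)) : Prop :=
  (x.2 = 1 ∧ y.2 = 1 ∧ True) ∨ x = 1 ∨ y = 1 ∨ (x.2 ≠ 1 ∧ y.2 ≠ 1 ∧ y.1 = ν * x.1)

instance (ν : Multiplicative (ZMod 2)) : DecidableRel (sp2 ν) := fun x y => by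
  unfold sp2
  infer_instance

theorem isLocal_ext_two0 (ν : Multiplicative (ZMod 2)) : (two0 ν).ext.IsLocal := by
  have h1 : ∀ a : Multiplicative (ZMod 2) × Multiplicative (ZMod 2), a * a = 1 := by decide
  have h3 : ∀ ν a b, sp2 ν a b → sp2 ν b a := by decide
  have h4 : ∀ ν a, sp2 ν a 1 := by decide
  have h5 : ∀ ν a, sp2 ν a ((ν, 1) * a) := by decide
  have h6 : ∀ ν a b c, sp2 ν a b → sp2 ν a c → sp2 ν a (b * c) := by decide
  have h7 : ∀ ν a b c, ¬ sp2 ν a b → ¬ sp2 ν a c → sp2 ν a (b * c) := by decide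
  have h8 : ∀ ν a, a ≠ 1 → ∃ b, ¬ sp2 ν a b := by decide
  exact ⟨h1, h3 ν, h4 ν, h5 ν, h6 ν, h7 ν, h8 ν⟩

/-- **Main result.**  Every finite structure of local type is elementary. -/
theorem isElementary_of_isLocal (S : QStr.{u}) [Finite S.G] (h : S.IsLocal) : IsElementary S := by
  let _ := Cls.md h
  have hfin : Finite (Additive S.G) := inferInstanceAs (Finite S.G)
  have hMF : Module.Finite (ZMod 2) (Additive S.G) := Module.Finite.of_finite
  have hcard : Nat.card S.G = 2 ^ finrank (ZMod 2) (Additive S.G) := by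
    have h1 := Module.natCard_eq_pow_finrank (K := ZMod 2) (V := Additive S.G)
    rw [Nat.card_zmod] at h1
    exact h1
  set n := finrank (ZMod 2) (Additive S.G) with hn
  have heven : S.neg = 1 → Even n := by
    intro hneg
    obtain ⟨B, hB, hN⟩ := Cls.exists_bilin h
    refine even_of_alt n (Additive S.G) B hN (fun x => ?_) rfl
    rw [hB]
    exact (Cls.alt_iff h).2 hneg x
  have s1 : ∀ a, S.Split 1 a := fun a => h.symm _ _ (h.one a)
  rcases Nat.lt_or_ge n 3 with hlt | hge
  · interval_cases hnn : n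
    · -- trivial group
      rw [pow_zero, Nat.card_eq_one_iff_unique] at hcard
      have : Subsingleton S.G := hcard.1
      exact QStr.isElementary_of_trivial S (fun a => Subsingleton.elim _ _) (h.one 1)
    · -- two elements
      have hneg : S.neg ≠ 1 := by
        intro h0
        have := heven h0
        exact absurd this (by decide)
      refine QStr.isElementary_of_two S ?_ (h.sq _) s1 h.one
      intro a
      by_cases ha : a = 1
      · exact Or.inl ha
      · obtain ⟨y, -, hy⟩ := (Nat.card_eq_two_iff' (1 : S.G)).1 (by rw [hcard, pow_one])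
        exact Or.inr ((hy a ha).trans (hy _ hneg).symm)
    · -- four elements
      obtain ⟨ν, hν⟩ : ∃ ν : Multiplicative (ZMod 2), S.neg = 1 ↔ ν = 1 := by
        by_cases h0 : S.neg = 1
        · exact ⟨1, by simp [h0]⟩
        · exact ⟨Multiplicative.ofAdd 1, by simp [h0]⟩
      have hT := isLocal_ext_two0 ν
      have hfT : Finite (two0 ν).ext.G :=
        inferInstanceAs (Finite (Multiplicative (ZMod 2) × Multiplicative (ZMod 2)))
      obtain ⟨f⟩ := exists_iso_of_isLocal S (two0 ν).ext h hT (by
        rw [hcard]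
        show _ = Nat.card (Multiplicative (ZMod 2) × Multiplicative (ZMod 2))
        rw [Nat.card_eq_fintype_card]
        rfl) (by
          rw [hν]
          show ν = 1 ↔ ((ν, 1) : Multiplicative (ZMod 2) × Multiplicative (ZMod 2)) = 1
          rw [Prod.mk_eq_one]
          simp)
      exact IsElementary.ext (twoU.{u} ν) S (isElementary_twoU ν) ⟨f.trans (twoIso ν).ext⟩
  · by_cases hneg : S.neg = 1
    · obtain ⟨m, hm⟩ := heven hneg
      obtain ⟨m, rfl⟩ : ∃ m', m = m' + 1 := ⟨m - 1, by omega⟩
      obtain ⟨K, _, _, hfd, hfK, hcK, hlK, hnK⟩ := exists_unram_i m (by omega)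
      have hfK' : Finite (QStr.ofField K).G := hfK
      obtain ⟨f⟩ := exists_iso_of_isLocal S (QStr.ofField K) h hlK (by
        show _ = Nat.card (SqClass K)
        rw [hcK, hcard, hm]
        have : m + 1 + (m + 1) = 2 * m + 2 := by ring
        rw [this, pow_add, pow_mul]
        norm_num
        ring) (by
          show _ ↔ sqClass (-1 : Kˣ) = 1
          simp [hneg, hnK])
      exact IsElementary.dyadic S K ⟨f⟩
    · obtain ⟨m, hm⟩ : ∃ m, n = m + 2 := ⟨n - 2, by omega⟩
      obtain ⟨K, _, _, hfd, hfK, hcK, hlK, hnK⟩ := exists_unram m (by omega)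
      have hfK' : Finite (QStr.ofField K).G := hfK
      obtain ⟨f⟩ := exists_iso_of_isLocal S (QStr.ofField K) h hlK (by
        show _ = Nat.card (SqClass K)
        rw [hcK, hcard, hm, pow_add]
        ring) (by
          show _ ↔ sqClass (-1 : Kˣ) = 1
          simp [hneg, hnK])
      exact IsElementary.dyadic S K ⟨f⟩

/-- Finite structures of elementary type in the sense of `ElemType` are elementary. -/
theorem isElementary_of_elemType {S : QStr.{u}} (h : ElemType S) (hfin : Finite S.G) :
    IsElementary S := by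
  induction h
  · rename_i S hS
    exact isElementary_of_isLocal S hS
  · rename_i S hS hsq
    exact QStr.isElementary_totallySplit _ S hfin rfl hsq hS
  · rename_i S T U hS hT f ihS ihT
    obtain ⟨g⟩ := f
    have hfi : Finite (S.G × T.G) := Finite.of_equiv _ g.e.toEquiv
    have h1 : Finite S.G := Finite.of_surjective (Prod.fst : S.G × T.G → S.G)
      (fun x => ⟨(x, 1), rfl⟩)
    have h3 : Finite T.G := Finite.of_surjective (Prod.snd : S.G × T.G → T.G)
      (fun x => ⟨(1, x), rfl⟩)
    exact IsElementary.prod S T U (ihS h1) (ihT h3) ⟨g⟩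
  · rename_i S U hS f ihS
    obtain ⟨g⟩ := f
    have hfi : Finite (S.G × Multiplicative (ZMod 2)) := Finite.of_equiv _ g.e.toEquiv
    have h1 : Finite S.G := Finite.of_surjective
      (Prod.fst : S.G × Multiplicative (ZMod 2) → S.G) (fun x => ⟨(x, 1), rfl⟩)
    exact IsElementary.ext S U (ihS h1) ⟨g⟩

end Pool.Agent.Hhelper86.Dyad
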