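import Pool.Agent.Hhelper86.Dyad.Common

/-!
# Unramified extensions of `ℚ₂` are of local type

`O` is a discrete valuation ring with uniformizer `2`, finite residue field `k`, and with Hensel's
lemma for quadratic polynomials; `K` is its field of fractions.
-/

namespace Pool.Agent.Hhelper86.Dyad

open Pool.Agent.Hhelper2 Pool.Agent.Hhelper2.Tower Pool.Agent.Hhelper2.QuadExt Pool.Agent.KRad
  Pool.Agent.Hhelper2.FieldAx Additive Module

universe u v

set_option linter.unusedSectionVars false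

/-- Henselian discrete valuation rings with uniformizer `2`. -/
structure UR {O : Type u} [CommRing O] {k : Type v} [Field k] (r : O →+* k) : Prop where
  surj : Function.Surjective r
  ker : ∀ x, r x = 0 → ∃ y, x = 2 * y
  unit : ∀ x, r x ≠ 0 → IsUnit x
  fac : ∀ x : O, x ≠ 0 → ∃ (n : ℕ) (u : Oˣ), x = 2 ^ n * u
  hens : ∀ d, r d = 0 → ∃ s, s ^ 2 - s + d = 0 ∧ r s = 1
  two : (2 : O) ≠ 0

namespace UR

section ring

variable {O : Type u} [CommRing O] {k : Type v} [Field k] [CharP k 2] {r : O →+* k}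

omit [CharP k 2] in
/-- Quadratic polynomials with a simple root modulo two. -/
theorem quad (h : UR r) (a b c : O) (hb : r b ≠ 0) (hc : r c = 0) :
    ∃ y, a * y ^ 2 + b * y + c = 0 ∧ r y = 0 := by
  obtain ⟨w, hw⟩ := h.unit b hb
  set b' : O := ((w⁻¹ : Oˣ) : O) with hb'
  have hbb : b * b' = 1 := by rw [← hw, hb', Units.mul_inv]
  obtain ⟨s, hs, hs1⟩ := h.hens (a * c * b' ^ 2) (by rw [map_mul, map_mul, hc]; ring)
  obtain ⟨t, ht⟩ := h.unit s (by rw [hs1]; exact one_ne_zero)
  set s' : O := ((t⁻¹ : Oˣ) : O) with hs'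
  have hss : s * s' = 1 := by rw [← ht, hs', Units.mul_inv]
  refine ⟨-(c * b' * s'), ?_, ?_⟩
  · have e1 : (s ^ 2 - s + a * c * b' ^ 2) * (c * s' ^ 2) = 0 := by rw [hs, zero_mul]
    have e2 : s ^ 2 * s' ^ 2 = 1 := by rw [← mul_pow, hss, one_pow]
    have e3 : s * s' ^ 2 = s' := by rw [pow_two, ← mul_assoc, hss, one_mul]
    linear_combination e1 - c * e2 + c * e3 - c * s' * hbb
  · rw [map_neg, map_mul, map_mul, hc]
    ring

/-- Artin-Schreier polynomials. -/
theorem artin (h : UR r) (c : O) (y₀ : k) (hy : y₀ ^ 2 + y₀ = r c) :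
    ∃ y, y ^ 2 + y = c := by
  obtain ⟨y, rfl⟩ := h.surj y₀
  have r2 : r 2 = 0 := by
    rw [map_ofNat]
    exact CharTwo.two_eq_zero
  obtain ⟨z, hz, -⟩ := h.quad 1 (2 * y + 1) (y ^ 2 + y - c)
    (by rw [map_add, map_mul, r2, map_one]; simp)
    (by rw [map_sub, map_add, map_pow, hy, sub_self])
  refine ⟨y + z, ?_⟩
  linear_combination hz

end ring

section field

variable {O : Type u} [CommRing O] {k : Type v} [Field k] [CharP k 2] {r : O →+* k}
  {K : Type u} [Field K] [Algebra O K] [IsFractionRing O K]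

/-- `x = 2 ^ n * u` -/
theorem rep [IsDomain O] (h : UR r) (x : K) (hx : x ≠ 0) :
    ∃ (n : ℤ) (u : Oˣ), x = 2 ^ n * algebraMap O K u := by
  have hK2 : (2 : K) ≠ 0 := by
    intro h0
    apply h.two
    apply IsFractionRing.injective O K
    rw [map_ofNat, h0, map_zero]
  obtain ⟨a, b, hb, rfl⟩ := IsFractionRing.div_surjective (A := O) x
  have hb0 : b ≠ 0 := nonZeroDivisors.ne_zero hb
  have ha0 : a ≠ 0 := by
    rintro rfl
    rw [map_zero, zero_div] at hx
    exact hx rfl
  obtain ⟨i, u, rfl⟩ := h.fac a ha0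
  obtain ⟨j, w, rfl⟩ := h.fac b hb0
  refine ⟨(i : ℤ) - j, u * w⁻¹, ?_⟩
  have hw : algebraMap O K (w : O) * algebraMap O K ((w⁻¹ : Oˣ) : O) = 1 := by
    rw [← map_mul, Units.mul_inv, map_one]
  have hw0 : algebraMap O K (w : O) ≠ 0 := left_ne_zero_of_mul_eq_one hw
  rw [zpow_sub₀ hK2, zpow_natCast, zpow_natCast, map_mul, map_mul, map_pow, map_pow, map_ofNat,
    Units.val_mul, map_mul]
  field_simp
  rw [hw]

theorem zp {K : Type u} [Field K] (x : K) (n : ℤ) : x ^ (2 * n) = (x ^ n) ^ 2 := by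
  rw [mul_comm, zpow_mul]
  exact_mod_cast zpow_natCast (x ^ n) 2

/-- Elements of even valuation. -/
def Ev (O : Type u) [CommRing O] {K : Type u} [Field K] [Algebra O K] (x : K) : Prop :=
  ∃ (n : ℤ) (u : Oˣ), x = 2 ^ (2 * n) * algebraMap O K u

/-- Elements of odd valuation. -/
def Od (O : Type u) [CommRing O] {K : Type u} [Field K] [Algebra O K] (x : K) : Prop :=
  ∃ (n : ℤ) (u : Oˣ), x = 2 ^ (2 * n + 1) * algebraMap O K u

include r in
omit [CharP k 2] in
theorem two_ne_K (h : UR r) : (2 : K) ≠ 0 := by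
  intro h0
  apply h.two
  apply IsFractionRing.injective O K
  rw [map_ofNat, h0, map_zero]

theorem r_two (r : O →+* k) : r 2 = 0 := by
  rw [map_ofNat]
  exact CharTwo.two_eq_zero

omit [CharP k 2] in
theorem r_unit (r : O →+* k) (u : Oˣ) : r u ≠ 0 := (u.map (r : O →* k)).ne_zero

theorem pow_unit (h : UR r) {j : ℤ} {u u' : Oˣ}
    (he : (2 : K) ^ j * algebraMap O K u = algebraMap O K u') : j = 0 := by
  have hK2 : (2 : K) ≠ 0 := h.two_ne_K
  have key : ∀ (n : ℕ) (u u' : Oˣ), n ≠ 0 →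
      (2 : K) ^ n * algebraMap O K u ≠ algebraMap O K u' := by
    intro n u u' hn he
    have h1 : (2 : O) ^ n * u = u' := by
      apply IsFractionRing.injective O K
      rw [map_mul, map_pow, map_ofNat, he]
    have h3 : r ((2 : O) ^ n * u) = r u' := by rw [h1]
    rw [map_mul, map_pow, r_two r, zero_pow hn, zero_mul] at h3
    exact r_unit r u' h3.symm
  by_contra hj
  rcases lt_or_gt_of_ne hj with hj' | hj'
  · obtain ⟨n, hn⟩ := Int.eq_ofNat_of_zero_le (show 0 ≤ -j by omega)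
    apply key n u' u (by omega)
    have h4 : (2 : K) ^ n * 2 ^ j = 1 := by
      rw [← zpow_natCast, ← zpow_add₀ hK2, ← hn]
      simp
    rw [← he, ← mul_assoc, h4, one_mul]
  · obtain ⟨n, hn⟩ := Int.eq_ofNat_of_zero_le (show 0 ≤ j by omega)
    apply key n u u' (by omega)
    rw [← he, hn, zpow_natCast]

theorem not_both (h : UR r) {x : K} (h1 : Ev O x) (h3 : Od O x) : False := by
  have hK2 : (2 : K) ≠ 0 := h.two_ne_K
  obtain ⟨n, u, hu⟩ := h1
  obtain ⟨m, w, hw⟩ := h3
  have h4 : (2 : K) ^ (2 * n - (2 * m + 1)) * algebraMap O K u = algebraMap O K w := by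
    rw [zpow_sub₀ hK2, div_mul_eq_mul_div, ← hu, hw]
    field_simp
  have := h.pow_unit h4
  omega

theorem ev_or_od [IsDomain O] (h : UR r) {x : K} (hx : x ≠ 0) : Ev O x ∨ Od O x := by
  obtain ⟨n, u, hu⟩ := h.rep x hx
  rcases Int.even_or_odd' n with ⟨m, hm | hm⟩
  · exact Or.inl ⟨m, u, by rw [hu, hm]⟩
  · exact Or.inr ⟨m, u, by rw [hu, hm]⟩

/-- squares are preserved -/
theorem Ev.mul_sq [IsDomain O] (h : UR r) {x y : K} (hx : Ev O x) (hy : y ≠ 0) :
    Ev O (x * y ^ 2) := by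
  obtain ⟨n, u, rfl⟩ := hx
  obtain ⟨m, w, rfl⟩ := h.rep y hy
  have hK2 : (2 : K) ≠ 0 := h.two_ne_K
  refine ⟨n + m, u * w ^ 2, ?_⟩
  have e1 : (2 : K) ^ (2 * (n + m)) = 2 ^ (2 * n) * (2 ^ m) ^ 2 := by
    rw [mul_add 2 n m, zpow_add₀ hK2, zp _ m]
  rw [Units.val_mul, Units.val_pow_eq_pow_val, map_mul, map_pow, e1]
  ring

theorem Od.mul_two (h : UR r) {x : K} (hx : Od O x) : Ev O (x * 2) := by
  obtain ⟨n, u, rfl⟩ := hx
  have hK2 : (2 : K) ≠ 0 := h.two_ne_K
  refine ⟨n + 1, u, ?_⟩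
  have : 2 * (n + 1) = (2 * n + 1) + 1 := by ring
  rw [this, zpow_add₀ hK2 (2 * n + 1) 1, zpow_one]
  ring

variable [Finite k]

/-- A class outside the image of the Artin-Schreier map. -/
theorem exists_c0 (h : UR r) : ∃ c : O, ∀ y : k, y ^ 2 + y ≠ r c := by
  have h1 : ¬ Function.Surjective (fun y : k => y ^ 2 + y) := by
    intro hs
    have hi := Finite.injective_iff_surjective.2 hs
    have h3 : (0 : k) = 1 := hi (by
      show (0 : k) ^ 2 + 0 = 1 ^ 2 + 1
      have : (1 : k) + 1 = 0 := CharTwo.add_self_eq_zero 1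
      rw [one_pow, this]; ring)
    exact zero_ne_one h3
  unfold Function.Surjective at h1
  push Not at h1
  obtain ⟨b, hb⟩ := h1
  obtain ⟨c, rfl⟩ := h.surj b
  exact ⟨c, hb⟩

/-- The image of the Artin-Schreier map has index two. -/
theorem index_two {b c : k} (hb : ∀ y, y ^ 2 + y ≠ b) (hc : ∀ y, y ^ 2 + y ≠ c) :
    ∃ y, y ^ 2 + y = b + c := by
  classical
  let f : k →+ k :=
    { toFun := fun y => y ^ 2 + y
      map_zero' := by ring
      map_add' := by
        intro x y
        rw [CharTwo.add_sq]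
        ring }
  have hf : ∀ y, f y = y ^ 2 + y := fun y => rfl
  have hker : Nat.card f.ker = 2 := by
    have h1 : (f.ker : Set k) = {0, 1} := by
      ext y
      rw [SetLike.mem_coe, AddMonoidHom.mem_ker, hf]
      constructor
      · intro h0
        have h3 : y * (y + 1) = 0 := by rw [← h0]; ring
        rcases mul_eq_zero.1 h3 with h4 | h4
        · exact Or.inl h4
        · refine Or.inr ?_
          have := CharTwo.add_eq_zero.1 h4
          exact this
      · rintro (rfl | rfl)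
        · ring
        · have : (1 : k) + 1 = 0 := CharTwo.add_self_eq_zero 1
          rw [one_pow, this]
    have h6 : Nat.card f.ker = Nat.card ((f.ker : Set k)) := rfl
    rw [h6, h1, Nat.card_coe_set_eq, Set.ncard_pair zero_ne_one]
  have hidx : f.range.index = 2 := by
    have h1 := AddSubgroup.card_mul_index f.range
    have h3 : Nat.card k = Nat.card f.ker * Nat.card f.range := by
      have := AddSubgroup.card_eq_card_quotient_mul_card_addSubgroup f.ker
      rw [this, mul_comm]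
      congr 1
      exact Nat.card_congr (QuotientAddGroup.quotientKerEquivRange f).toEquiv
    rw [h3, hker, mul_comm 2] at h1
    have h5 : 0 < Nat.card f.range := Nat.card_pos
    exact Nat.eq_of_mul_eq_mul_left h5 h1
  have h7 : b + c ∈ f.range := by
    rw [AddSubgroup.add_mem_iff_of_index_two hidx]
    constructor
    · rintro ⟨y, hy⟩
      exact absurd hy (hb y)
    · rintro ⟨y, hy⟩
      exact absurd hy (hc y)
  obtain ⟨y, hy⟩ := h7
  exact ⟨y, hy⟩

theorem exists_sqrt (h : UR r) (u : Oˣ) : ∃ s : Oˣ, r s ^ 2 = r u := by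
  obtain ⟨y, hy⟩ := FiniteField.isSquare_of_char_two (ringChar.eq_iff.2 inferInstance) (r u)
  obtain ⟨s, rfl⟩ := h.surj y
  have h1 : r s ≠ 0 := by
    intro h0
    rw [h0, zero_mul] at hy
    exact r_unit r u hy
  obtain ⟨t, rfl⟩ := h.unit s h1
  exact ⟨t, by rw [hy]; ring⟩

/-! ### The class `Δ = 1 + 4 c₀` -/

/-- The norm form takes values of even valuation. -/
theorem norm_even [IsDomain O] (h : UR r) {c₀ : O} (hc : ∀ y : k, y ^ 2 + y ≠ r c₀) (X Y : K)
    (hXY : X ≠ 0 ∨ Y ≠ 0) : Ev O (X ^ 2 + X * Y - algebraMap O K c₀ * Y ^ 2) := by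
  have hK2 : (2 : K) ≠ 0 := h.two_ne_K
  -- values on primitive vectors of `O`
  have prim : ∀ x y : O, r x ≠ 0 ∨ r y ≠ 0 → r (x ^ 2 + x * y - c₀ * y ^ 2) ≠ 0 := by
    intro x y hxy h0
    rw [map_sub, map_add, map_pow, map_mul, map_mul, map_pow] at h0
    by_cases hy : r y = 0
    · rw [hy] at h0
      have hx : r x ≠ 0 := hxy.resolve_right (fun h1 => h1 hy)
      apply hx
      have : r x ^ 2 = 0 := by rw [← h0]; ring
      exact pow_eq_zero_iff (two_ne_zero) |>.1 this
    · apply hc (r x / r y)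
      field_simp
      linear_combination h0
  have prim' : ∀ x y : O, ∀ m : ℤ, r x ≠ 0 ∨ r y ≠ 0 →
      Ev O ((2 ^ m * algebraMap O K x) ^ 2 + (2 ^ m * algebraMap O K x) *
        (2 ^ m * algebraMap O K y) - algebraMap O K c₀ * (2 ^ m * algebraMap O K y) ^ 2) := by
    intro x y m hxy
    obtain ⟨w, hw⟩ := h.unit _ (prim x y hxy)
    refine ⟨m, w, ?_⟩
    rw [zp _ m, hw, map_sub, map_add, map_pow, map_mul, map_mul, map_pow]
    ring
  have hr1 : r (0 : O) = 0 := map_zero r
  by_cases hX : X = 0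
  · have hY : Y ≠ 0 := hXY.resolve_left (fun h0 => h0 hX)
    obtain ⟨m, w, rfl⟩ := h.rep Y hY
    have := prim' 0 w m (Or.inr (r_unit r w))
    rw [map_zero, mul_zero] at this
    rw [hX]
    exact this
  by_cases hY : Y = 0
  · obtain ⟨m, w, rfl⟩ := h.rep X hX
    have := prim' w 0 m (Or.inl (r_unit r w))
    rw [map_zero, mul_zero] at this
    rw [hY]
    exact this
  obtain ⟨a, u, rfl⟩ := h.rep X hX
  obtain ⟨b, w, rfl⟩ := h.rep Y hY
  rcases le_total a b with hab | hab
  · obtain ⟨n, hn⟩ := Int.eq_ofNat_of_zero_le (show 0 ≤ b - a by omega)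
    have e1 : (2 : K) ^ b * algebraMap O K w = 2 ^ a * algebraMap O K (2 ^ n * w) := by
      rw [map_mul, map_pow, map_ofNat, ← zpow_natCast, ← hn, ← mul_assoc, ← zpow_add₀ hK2]
      congr 2
      ring
    rw [e1]
    exact prim' _ _ a (Or.inl (r_unit r u))
  · obtain ⟨n, hn⟩ := Int.eq_ofNat_of_zero_le (show 0 ≤ a - b by omega)
    have e1 : (2 : K) ^ a * algebraMap O K u = 2 ^ b * algebraMap O K (2 ^ n * u) := by
      rw [map_mul, map_pow, map_ofNat, ← zpow_natCast, ← hn, ← mul_assoc, ← zpow_add₀ hK2]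
      congr 2
      ring
    rw [e1]
    exact prim' _ _ b (Or.inr (r_unit r w))

/-- Units are values of the norm form. -/
theorem norm_unit (h : UR r) (c₀ : O) (u : Oˣ) :
    ∃ X Y : O, X ^ 2 + X * Y - c₀ * Y ^ 2 = u := by
  obtain ⟨s, hs⟩ := h.exists_sqrt u
  obtain ⟨y, hy, -⟩ := h.quad (-c₀) s (s ^ 2 - u) (r_unit r s)
    (by rw [map_sub, map_pow, hs, sub_self])
  exact ⟨s, y, by linear_combination hy⟩

/-- The unit `Δ`. -/
noncomputable def del (h : UR r) (c₀ : O) : Oˣ :=
  (h.unit (1 + 4 * c₀) (by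
    have : (4 : O) = 2 * 2 := by norm_num
    rw [map_add, map_mul, this, map_mul, r_two r, map_one]
    simp)).unit

theorem del_val (h : UR r) (c₀ : O) : (h.del c₀ : O) = 1 + 4 * c₀ := rfl

theorem unit_ne (K : Type u) [Field K] [Algebra O K] [IsFractionRing O K] [IsDomain O]
    (u : Oˣ) : algebraMap O K u ≠ 0 := by
  intro h0
  apply u.ne_zero
  apply IsFractionRing.injective O K
  rw [h0, map_zero]

/-- The class in `K` of a unit of `O`. -/
noncomputable def cl (K : Type u) [Field K] [Algebra O K] [IsFractionRing O K] [IsDomain O]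
    (u : Oˣ) : SqClass K := sqClass (Units.mk0 (algebraMap O K u) (unit_ne K u))

theorem split_del [IsDomain O] (h : UR r) {c₀ : O} (hc : ∀ y : k, y ^ 2 + y ≠ r c₀) (z : Kˣ) :
    FieldSplit K (cl K (h.del c₀)) (sqClass z) ↔ Ev O (z : K) := by
  have hK2 : (2 : K) ≠ 0 := h.two_ne_K
  unfold cl
  rw [split_mk, solv_iff hK2 (Units.ne_zero _) z.ne_zero, Units.val_mk0, del_val, map_add,
    map_mul, map_one, map_ofNat]
  constructor
  · rintro ⟨p, q, hpq⟩
    have h1 := h.norm_even (K := K) hc (p - q) (2 * q) (by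
      by_contra hcon
      push Not at hcon
      have hq : q = 0 := (mul_eq_zero.1 hcon.2).resolve_left hK2
      have hp : p = 0 := by
        have := hcon.1
        rw [hq, sub_zero] at this
        exact this
      apply z.ne_zero
      rw [hpq, hp, hq]
      ring)
    have e1 : (z : K) = (p - q) ^ 2 + (p - q) * (2 * q) - algebraMap O K c₀ * (2 * q) ^ 2 := by
      rw [hpq]; ring
    rw [e1]
    exact h1
  · rintro ⟨n, u, hz⟩
    obtain ⟨X, Y, hXY⟩ := h.norm_unit c₀ u
    have h1 := congrArg (algebraMap O K) hXY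
    rw [map_sub, map_add, map_pow, map_mul, map_mul, map_pow] at h1
    refine ⟨2 ^ n * (algebraMap O K X + algebraMap O K Y / 2), 2 ^ n * (algebraMap O K Y / 2), ?_⟩
    rw [hz, zp _ n, ← h1]
    field_simp
    ring

end field

end UR

end Pool.Agent.Hhelper86.Dyad
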